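import Pool.Agent.Helper69.AH.Lat

/-! Clusters of zeros carry few pairs; sparse zeros are few. -/

open Filter Topology Complex MeasureTheory

namespace Pool.Agent.Helper69.AH

open H332B Pool.Agent.Helper84.OS Pool.Agent.Helper69.PC

/-- the sum over the second zero -/
noncomputable def Ak (T : ℝ) (f : ℝ → ℝ) (s : ℂ) : ℝ :=
  ∑ s' ∈ H343.ZSide.Z0 T, H343.ZSide.mz s' * f (s.im - s'.im)

lemma K2_Ak (T : ℝ) (f : ℝ → ℝ) :
    K2 T f = ∑ s ∈ H343.ZSide.Z0 T, H343.ZSide.mz s * Ak T f s := by
  unfold K2 Ak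
  refine Finset.sum_congr rfl fun s _ => ?_
  rw [Finset.mul_sum]
  exact Finset.sum_congr rfl fun s' _ => by ring

lemma Ak_nonneg {T : ℝ} {f : ℝ → ℝ} (hf : ∀ x, 0 ≤ f x) (s : ℂ) : 0 ≤ Ak T f s :=
  Finset.sum_nonneg fun s' _ => mul_nonneg (mz_nonneg s') (hf _)

lemma Ak_mono {T : ℝ} {f g : ℝ → ℝ} (h : ∀ x, f x ≤ g x) (s : ℂ) : Ak T f s ≤ Ak T g s :=
  Finset.sum_le_sum fun s' _ => mul_le_mul_of_nonneg_left (h _) (mz_nonneg s')

lemma Ak_smul (T c : ℝ) (f : ℝ → ℝ) (s : ℂ) : Ak T (fun x => c * f x) s = c * Ak T f s := by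
  unfold Ak
  rw [Finset.mul_sum]
  exact Finset.sum_congr rfl fun s' _ => by ring

open Classical in
/-- **clusters** -/
theorem clusters (hRH : RiemannHypothesis) : ∃ r0 : ℝ, 1 ≤ r0 ∧ ∀ r : ℝ, r0 ≤ r →
    ∀ᶠ T in atTop, ∑ s ∈ H343.ZSide.Z0 T, H343.ZSide.mz s *
      (if 10 ≤ Ak T (fun x => ph r (Real.log T * x)) s then
        Ak T (fun x => ph r (Real.log T * x)) s else 0) ≤ 14 / r ^ 2 * X T := by
  obtain ⟨r0, hr0, hup⟩ := ph_upper hRH
  refine ⟨r0, hr0, fun r hr => ?_⟩
  have hr1 : 1 ≤ r := hr0.trans hr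
  have hrp : 0 < r := by linarith
  filter_upwards [hup r hr, part_low hr1, NZ_asymp (ε := 1 / r ^ 2) (by positivity),
    eventually_gt_atTop (1 : ℝ)] with T h1 h2 h3 hT
  have hX := X_pos hT
  set A : ℂ → ℝ := Ak T (fun x => ph r (Real.log T * x)) with hA
  have hA0 : ∀ s, 0 ≤ A s := fun s => Ak_nonneg (fun x => ph_nonneg hrp _) s
  set g : ℂ → ℝ := fun s => if 10 ≤ A s then 0 else 1 with hg
  have hg01 : ∀ s, 0 ≤ g s ∧ g s ≤ 1 := by
    intro s
    simp only [hg]
    split_ifs <;> norm_num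
  have h4 := h2 g hg01
  set B := ∑ s ∈ H343.ZSide.Z0 T, H343.ZSide.mz s * (if 10 ≤ A s then A s else 0) with hB
  -- the decomposition
  have h5 : (∑ s ∈ H343.ZSide.Z0 T, ∑ s' ∈ H343.ZSide.Z0 T,
        (H343.ZSide.mz s * g s) * (H343.ZSide.mz s' * g s') *
          ph r (Real.log T * s.im - Real.log T * s'.im)) + B ≤
      K2 T (fun x => ph r (Real.log T * x)) := by
    rw [K2_Ak, hB, ← Finset.sum_add_distrib]
    refine Finset.sum_le_sum fun s _ => ?_
    have e1 : ∑ s' ∈ H343.ZSide.Z0 T, (H343.ZSide.mz s * g s) * (H343.ZSide.mz s' * g s') *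
          ph r (Real.log T * s.im - Real.log T * s'.im) ≤ H343.ZSide.mz s * (g s * A s) := by
      rw [hA]
      unfold Ak
      rw [Finset.mul_sum, Finset.mul_sum]
      refine Finset.sum_le_sum fun s' _ => ?_
      show _ ≤ H343.ZSide.mz s * (g s * (H343.ZSide.mz s' * ph r (Real.log T * (s.im - s'.im))))
      rw [mul_sub (Real.log T)]
      have e2 : 0 ≤ H343.ZSide.mz s * g s := mul_nonneg (mz_nonneg s) (hg01 s).1
      have e3 := ph_nonneg hrp (Real.log T * s.im - Real.log T * s'.im)
      have e4 : H343.ZSide.mz s' * g s' ≤ H343.ZSide.mz s' :=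
        mul_le_of_le_one_right (mz_nonneg s') (hg01 s').2
      calc H343.ZSide.mz s * g s * (H343.ZSide.mz s' * g s') *
            ph r (Real.log T * s.im - Real.log T * s'.im) ≤
          H343.ZSide.mz s * g s * H343.ZSide.mz s' *
            ph r (Real.log T * s.im - Real.log T * s'.im) := by gcongr
        _ = _ := by ring
    have e5 : H343.ZSide.mz s * (g s * A s) +
        H343.ZSide.mz s * (if 10 ≤ A s then A s else 0) = H343.ZSide.mz s * A s := by
      simp only [hg]
      split_ifs <;> ring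
    linarith
  have h6 : ∑ s ∈ H343.ZSide.Z0 T, H343.ZSide.mz s * g s ≥ NZ T - B / 10 := by
    rw [← NZ_sum, hB, ge_iff_le, sub_le_iff_le_add, Finset.sum_div, ← Finset.sum_add_distrib]
    refine Finset.sum_le_sum fun s _ => ?_
    have := mz_nonneg s
    simp only [hg]
    split_ifs with h
    · nlinarith
    · simp
  have hB0 : 0 ≤ B := Finset.sum_nonneg fun s _ => mul_nonneg (mz_nonneg s) (by
    split_ifs
    · exact hA0 s
    · exact le_rfl)
  set u := 1 / r ^ 2 with hu
  have hu0 : 0 < u := by positivity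
  have e3 : 3 / r ^ 2 = 3 * u := by
    rw [hu]
    ring
  have e8 : 8 / r ^ 2 = 8 * u := by
    rw [hu]
    ring
  have e14 : 14 / r ^ 2 = 14 * u := by
    rw [hu]
    ring
  rw [e3] at h1
  rw [e8] at h4
  rw [e14]
  have h7 : 0 < u * X T := by positivity
  nlinarith [h3.1]

/-- the number of the zeros near `s` -/
noncomputable def nK (T K : ℝ) (s : ℂ) : ℝ := Ak T (ind T K) s

lemma nK_nonneg (T K : ℝ) (s : ℂ) : 0 ≤ nK T K s := Ak_nonneg (ind_nonneg T K) s

lemma ind_le_ph {T K r : ℝ} (hr : 0 < r) (hK : K ≤ r) (x : ℝ) :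
    ind T K x ≤ 2 * r * ph r (Real.log T * x) := by
  unfold ind
  split_ifs with h
  · have h1 := ph_ge hr (h.trans hK)
    have h2 : 2 * r * (1 / (2 * r)) = 1 := by field_simp
    nlinarith
  · have := ph_nonneg hr (Real.log T * x)
    positivity

open Classical in
/-- **uniform integrability of the local numbers of zeros** -/
theorem unif_int (hRH : RiemannHypothesis) (K : ℝ) {κ : ℝ} (hκ : 0 < κ) :
    ∃ R : ℝ, 0 < R ∧ ∀ᶠ T in atTop, ∑ s ∈ H343.ZSide.Z0 T, H343.ZSide.mz s *
      (if R ≤ nK T K s then nK T K s else 0) ≤ κ * X T := by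
  obtain ⟨r0, hr0, h⟩ := clusters hRH
  set r : ℝ := max r0 (max K (28 / κ)) with hr
  have hr1 : r0 ≤ r := le_max_left _ _
  have hrK : K ≤ r := (le_max_left _ _).trans (le_max_right _ _)
  have hrκ : 28 / κ ≤ r := (le_max_right _ _).trans (le_max_right _ _)
  have hrp : 0 < r := by linarith
  refine ⟨20 * r, by positivity, ?_⟩
  filter_upwards [h r hr1, eventually_gt_atTop (1 : ℝ)] with T h1 hT
  have hX := X_pos hT
  have h2 : ∀ s, nK T K s ≤ 2 * r * Ak T (fun x => ph r (Real.log T * x)) s := by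
    intro s
    rw [← Ak_smul]
    exact Ak_mono (ind_le_ph hrp hrK) s
  have h3 : ∑ s ∈ H343.ZSide.Z0 T, H343.ZSide.mz s *
      (if 20 * r ≤ nK T K s then nK T K s else 0) ≤
      2 * r * ∑ s ∈ H343.ZSide.Z0 T, H343.ZSide.mz s *
      (if 10 ≤ Ak T (fun x => ph r (Real.log T * x)) s then
        Ak T (fun x => ph r (Real.log T * x)) s else 0) := by
    rw [Finset.mul_sum]
    refine Finset.sum_le_sum fun s _ => ?_
    have h4 := h2 s
    have h5 := mz_nonneg s
    split_ifs with a b b
    · have : H343.ZSide.mz s * nK T K s ≤ H343.ZSide.mz s * (2 * r *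
        Ak T (fun x => ph r (Real.log T * x)) s) := by gcongr
      linarith
    · exfalso
      push Not at b
      nlinarith
    · have : 0 ≤ Ak T (fun x => ph r (Real.log T * x)) s := Ak_nonneg (fun x => ph_nonneg hrp _) s
      rw [mul_zero]
      positivity
    · simp
  have h4 : 2 * r * (14 / r ^ 2 * X T) ≤ κ * X T := by
    have h5 : 2 * r * (14 / r ^ 2 * X T) = 28 / r * X T := by
      field_simp
      norm_num
    rw [h5]
    have h6 : 28 / r ≤ κ := by
      rw [div_le_iff₀ hrp]
      rw [div_le_iff₀ hκ] at hrκ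
      linarith
    gcongr
  have h5 : 2 * r * ∑ s ∈ H343.ZSide.Z0 T, H343.ZSide.mz s *
      (if 10 ≤ Ak T (fun x => ph r (Real.log T * x)) s then
        Ak T (fun x => ph r (Real.log T * x)) s else 0) ≤ 2 * r * (14 / r ^ 2 * X T) := by gcongr
  linarith

open Classical in
/-- **sparse zeros are few** -/
theorem sparse {D c : ℝ} (hD : 0 < D) (hc : 0 < c) : ∀ᶠ T in atTop,
    ∑ s ∈ H343.ZSide.Z0 T, H343.ZSide.mz s * (if nK T D s < c * D then 1 else 0) ≤
      10 * c * X T := by
  have h1 : Tendsto X atTop atTop := by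
    have : X = fun T : ℝ => T * (Real.log T * (1 / (2 * Real.pi))) := by
      funext T
      unfold X
      ring
    have hpi := Real.pi_pos
    rw [this]
    exact tendsto_id.atTop_mul_atTop₀
      (Real.tendsto_log_atTop.atTop_mul_const (by positivity))
  filter_upwards [h1.eventually_ge_atTop D, eventually_gt_atTop (1 : ℝ)] with T h1 hT
  have hL := Real.log_pos hT
  have hX := X_pos hT
  have hpi := Real.pi_pos
  set V : ℝ := Real.log T * T with hV
  have hVX : V = 2 * Real.pi * X T := by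
    rw [hV]
    unfold X
    field_simp
  have hV0 : 0 < V := by positivity
  set j : ℂ → ℕ := fun s => ⌊Real.log T * s.im / D⌋₊ with hj
  set n : ℕ := ⌊V / D⌋₊ + 1 with hn
  have hmap : ∀ s ∈ H343.ZSide.Z0 T, j s ∈ Finset.range n := by
    intro s hs
    obtain ⟨h2, h3⟩ := mem_Z hs
    rw [Finset.mem_range, hn, Nat.lt_succ_iff]
    refine Nat.floor_le_floor ?_
    have h4 : Real.log T * s.im ≤ V := by
      rw [hV]
      gcongr
    gcongr
  rw [← Finset.sum_fiberwise_of_maps_to hmap]
  have h2 : ∀ k ∈ Finset.range n, ∑ s ∈ (H343.ZSide.Z0 T).filter (fun s => j s = k),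
      H343.ZSide.mz s * (if nK T D s < c * D then (1 : ℝ) else 0) ≤ c * D := by
    intro k _
    by_cases hex : ∃ s₀ ∈ (H343.ZSide.Z0 T).filter (fun s => j s = k), nK T D s₀ < c * D
    · obtain ⟨s₀, hs₀, h3⟩ := hex
      rw [Finset.mem_filter] at hs₀
      refine le_trans ?_ h3.le
      have h4 : ∑ s ∈ (H343.ZSide.Z0 T).filter (fun s => j s = k),
          H343.ZSide.mz s * (if nK T D s < c * D then (1 : ℝ) else 0) ≤
          ∑ s ∈ (H343.ZSide.Z0 T).filter (fun s => j s = k),
            H343.ZSide.mz s * ind T D (s₀.im - s.im) := by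
        refine Finset.sum_le_sum fun s hs => ?_
        rw [Finset.mem_filter] at hs
        obtain ⟨h5, h6⟩ := mem_Z hs.1
        obtain ⟨h7, h8⟩ := mem_Z hs₀.1
        have h9 : ind T D (s₀.im - s.im) = 1 := by
          unfold ind
          rw [if_pos]
          have e1 : (k : ℝ) ≤ Real.log T * s.im / D := by
            rw [← hs.2]
            exact Nat.floor_le (by positivity)
          have e2 : Real.log T * s.im / D < k + 1 := by
            rw [← hs.2]
            exact Nat.lt_floor_add_one _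
          have e3 : (k : ℝ) ≤ Real.log T * s₀.im / D := by
            rw [← hs₀.2]
            exact Nat.floor_le (by positivity)
          have e4 : Real.log T * s₀.im / D < k + 1 := by
            rw [← hs₀.2]
            exact Nat.lt_floor_add_one _
          rw [le_div_iff₀ hD] at e1 e3
          rw [div_lt_iff₀ hD] at e2 e4
          rw [abs_le]
          constructor <;> nlinarith
        rw [h9]
        have := mz_nonneg s
        split_ifs <;> linarith
      refine h4.trans ?_
      unfold nK Ak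
      exact Finset.sum_le_sum_of_subset_of_nonneg (Finset.filter_subset _ _) fun s _ _ =>
        mul_nonneg (mz_nonneg s) (ind_nonneg _ _ _)
    · push Not at hex
      have h3 : ∑ s ∈ (H343.ZSide.Z0 T).filter (fun s => j s = k),
          H343.ZSide.mz s * (if nK T D s < c * D then (1 : ℝ) else 0) = 0 := by
        refine Finset.sum_eq_zero fun s hs => ?_
        rw [if_neg (not_lt.2 (hex s hs)), mul_zero]
      rw [h3]
      positivity
  refine (Finset.sum_le_sum h2).trans ?_
  rw [Finset.sum_const, Finset.card_range, nsmul_eq_mul]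
  have h3 : (n : ℝ) * D ≤ V + D := by
    rw [hn]
    push_cast
    have := Nat.floor_le (a := V / D) (by positivity)
    rw [le_div_iff₀ hD] at this
    linarith
  have h4 := Real.pi_lt_four
  have h5 : V + D ≤ 10 * X T := by
    rw [hVX]
    nlinarith
  calc (n : ℝ) * (c * D) = c * (n * D) := by ring
    _ ≤ c * (10 * X T) := mul_le_mul_of_nonneg_left (h3.trans h5) hc.le
    _ = _ := by ring

end Pool.Agent.Helper69.AH
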