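import Pool.Agent.Helper69.AH.Dir

/-! The lattice forms, and the converse. -/

open Filter Topology Complex MeasureTheory

namespace Pool.Agent.Helper69.AH

open H332B Pool.Agent.Helper84.OS Pool.Agent.Helper69.PC

variable {l : Filter ℝ}

lemma ph_one (hRH : RiemannHypothesis) : ∃ r0 : ℝ, 1 ≤ r0 ∧ ∀ r : ℝ, r0 ≤ r →
    ∀ᶠ T in atTop, K2 T (fun x => ph r (Real.log T * x)) ≤ X T := by
  obtain ⟨r0, hr0, h⟩ := ph_upper hRH
  refine ⟨max r0 3, hr0.trans (le_max_left _ _), fun r hr => ?_⟩
  have h1 : r0 ≤ r := (le_max_left _ _).trans hr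
  have h2 : 3 ≤ r := (le_max_right _ _).trans hr
  filter_upwards [h r h1, eventually_gt_atTop (1 : ℝ)] with T h3 hT
  have hX := X_pos hT
  have h4 : 3 / r ^ 2 ≤ 1 / 2 := by
    rw [div_le_div_iff₀ (by positivity) (by norm_num)]
    nlinarith
  nlinarith

/-- the number of the pairs within `K` -/
lemma pairs_bound (hRH : RiemannHypothesis) (K : ℝ) : ∃ C : ℝ, 0 < C ∧
    ∀ᶠ T in atTop, K2 T (ind T K) ≤ C * X T := by
  obtain ⟨r0, hr0, h⟩ := ph_one hRH
  set r : ℝ := max r0 K with hr
  have hr1 : r0 ≤ r := le_max_left _ _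
  have hrp : 0 < r := by linarith
  refine ⟨2 * r, by positivity, ?_⟩
  filter_upwards [h r hr1] with T h1
  have h2 : K2 T (ind T K) ≤ K2 T (fun x => 2 * r * ph r (Real.log T * x)) :=
    K2_mono fun x => ind_le_ph hrp (le_max_right _ _) x
  rw [K2_smul] at h2
  refine h2.trans ?_
  gcongr

/-- the Poisson mean of the defect -/
lemma Dq_mean (hRH : RiemannHypothesis) (hl : l ≤ atTop) {b : ℝ → ℝ} (h : Dq l b) {r κ : ℝ}
    (hr : 0 < r) (hκ : 0 < κ) : ∀ᶠ T in l,
      K2 T (fun x => ph r (Real.log T * x) * q (b T) T x) ≤ κ * X T := by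
  obtain ⟨r0, hr0, h1⟩ := ph_one hRH
  set K : ℝ := max r0 (8 * r / κ) with hK
  have hK1 : r0 ≤ K := le_max_left _ _
  have hK2 : 8 * r / κ ≤ K := le_max_right _ _
  have hK0 : 0 < K := by linarith
  filter_upwards [(h1 K hK1).filter_mono hl, h K hK0 (κ * r / 2) (by positivity),
    (eventually_gt_atTop (1 : ℝ)).filter_mono hl] with T h2 h3 hT
  have hX := X_pos hT
  have h4 : K2 T (fun x => ph r (Real.log T * x) * q (b T) T x) ≤
      K2 T (fun x => 1 / r * (ind T K x * q (b T) T x) + 4 * r / K * ph K (Real.log T * x)) := by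
    refine K2_mono fun x => ?_
    have e1 := q_nonneg (b T) T x
    have e2 := q_le (b T) T x
    have e3 := ph_nonneg hr (Real.log T * x)
    have e4 := ph_nonneg hK0 (Real.log T * x)
    have e5 := ph_le hr (Real.log T * x)
    unfold ind
    split_ifs with hx
    · have : ph r (Real.log T * x) * q (b T) T x ≤ 1 / r * q (b T) T x := by gcongr
      have : 0 ≤ 4 * r / K * ph K (Real.log T * x) := by positivity
      linarith
    · push Not at hx
      have e6 : ph r (Real.log T * x) ≤ 2 * r / K * ph K (Real.log T * x) := by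
        unfold ph
        have e7 : K ^ 2 ≤ (Real.log T * x) ^ 2 := by
          rw [← sq_abs (Real.log T * x)]
          exact pow_le_pow_left₀ hK0.le hx.le 2
        have e8 : 2 * r / K * (K / (K ^ 2 + (Real.log T * x) ^ 2)) =
            2 * r / (K ^ 2 + (Real.log T * x) ^ 2) := by
          field_simp
        rw [e8, div_le_div_iff₀ (by positivity) (by positivity)]
        nlinarith [mul_nonneg hr.le (sub_nonneg.2 e7), mul_nonneg hr.le (sq_nonneg r)]
      have e9 : ph r (Real.log T * x) * q (b T) T x ≤ (2 * r / K * ph K (Real.log T * x)) * 2 := by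
        gcongr
      have e10 : 4 * r / K * ph K (Real.log T * x) = (2 * r / K * ph K (Real.log T * x)) * 2 := by
        ring
      rw [zero_mul, mul_zero, zero_add, e10]
      exact e9
  rw [K2_add, K2_smul, K2_smul] at h4
  refine h4.trans ?_
  have h5 : 1 / r * K2 T (fun x => ind T K x * q (b T) T x) ≤ 1 / r * (κ * r / 2 * X T) := by gcongr
  have h6 : 4 * r / K * K2 T (fun x => ph K (Real.log T * x)) ≤ 4 * r / K * X T := by gcongr
  have h7 : 1 / r * (κ * r / 2 * X T) = κ / 2 * X T := by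
    field_simp
  have h8 : 4 * r / K ≤ κ / 2 := by
    rw [div_le_iff₀ hκ] at hK2
    rw [div_le_div_iff₀ hK0 (by norm_num)]
    linarith
  have h9 : 4 * r / K * X T ≤ κ / 2 * X T := by gcongr
  linarith

lemma cum_neg (hRH : RiemannHypothesis) (T a : ℝ) : cum T (-a) = -cum T a := by
  unfold cum
  rw [← neg_div]
  congr 1
  have h1 := intervalIntegral.integral_comp_neg (a := 0) (b := a)
    (fun α => Wp T (α * Real.log T))
  rw [neg_zero] at h1
  rw [intervalIntegral.integral_symm, ← h1]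
  simp_rw [Wneg hRH T]

/-- the mass at zero -/
lemma P_zero_lower (hRH : RiemannHypothesis) {r κ : ℝ} (hr : 0 < r) (hκ : 0 < κ) :
    ∀ᶠ T in atTop, (1 - κ) * X T ≤ 2 * P T r 0 := by
  wlog hκ1 : κ ≤ 1 generalizing κ
  · push Not at hκ1
    filter_upwards [this one_pos le_rfl, eventually_gt_atTop (1 : ℝ)] with T h1 hT
    have hX := X_pos hT
    nlinarith
  set ε : ℝ := min (κ / (2 * r)) (1 / 2) with hε
  have hε0 : 0 < ε := lt_min (by positivity) (by norm_num)
  have hε1 : ε ≤ 1 / 2 := min_le_right _ _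
  have hε2 : ε ≤ κ / (2 * r) := min_le_left _ _
  have h1 := (Metric.tendsto_nhds.1 (cum_lim hRH hε0 (by linarith))) (κ / 4) (by positivity)
  filter_upwards [h1, eventually_gt_atTop (1 : ℝ)] with T h1 hT
  have hX := X_pos hT
  rw [Real.dist_eq, abs_lt] at h1
  have h2 := mass_le_P hRH hT 0 hr hε0.le
  rw [zero_add, zero_sub, cum_neg hRH] at h2
  have h3 : 1 - κ / 2 ≤ Real.exp (-r * ε) := by
    have h4 := Real.add_one_le_exp (-r * ε)
    have h5 : r * ε ≤ κ / 2 := by
      calc r * ε ≤ r * (κ / (2 * r)) := by gcongr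
        _ = κ / 2 := by field_simp
    linarith
  have h4 : 1 - κ / 2 ≤ cum T ε - -cum T ε := by
    nlinarith [h1.1, sq_nonneg ε]
  refine le_trans ?_ h2
  have h5 : (1 - κ / 2) * (X T * (1 - κ / 2)) ≤
      Real.exp (-r * ε) * (X T * (cum T ε - -cum T ε)) := by
    have : 0 ≤ 1 - κ / 2 := by linarith
    gcongr
  nlinarith [mul_pos hκ hX, mul_pos (mul_pos hκ hκ) hX]

lemma P_le_zero {r : ℝ} (hr : 0 < r) (T b : ℝ) :
    P T r b ≤ K2 T (fun x => ph r (Real.log T * x)) := by
  unfold P
  refine K2_mono fun x => ?_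
  have h1 := wt_le x
  have h2 := ph_nonneg hr (Real.log T * x)
  have h3 := Real.cos_le_one (b * (Real.log T * x))
  calc 4 / (4 + x ^ 2) * (ph r (Real.log T * x) * Real.cos (b * (Real.log T * x))) ≤
      4 / (4 + x ^ 2) * (ph r (Real.log T * x) * 1) := by
        gcongr
    _ ≤ 1 * (ph r (Real.log T * x) * 1) := by
        gcongr
        exact h1.2
    _ = _ := by ring

/-- **the lattice implies mass one** -/
theorem Dq_M1 (hRH : RiemannHypothesis) (hl : l ≤ atTop) {b : ℝ → ℝ} (h : Dq l b) : M1 l b := by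
  intro ε hε c hc
  obtain ⟨r0, hr0, h1⟩ := ph_one hRH
  set κ : ℝ := (1 - c) / 4 with hκ
  have hκ0 : 0 < κ := by
    rw [hκ]
    linarith
  set r : ℝ := max (2 * r0) (2 / (κ * ε) * 4) with hr
  have hr1 : 2 * r0 ≤ r := le_max_left _ _
  have hr2 : 2 / (κ * ε) * 4 ≤ r := le_max_right _ _
  have hrp : 0 < r := by linarith
  -- `2 exp (-(r/2) ε) ≤ κ`
  have hexp : Real.exp (-(r / 2) * ε) * 2 ≤ κ := by
    have h2 : 4 / κ ≤ r / 2 * ε := by
      have : 2 / (κ * ε) * 4 * (ε / 2) ≤ r * (ε / 2) := by gcongr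
      have e : 2 / (κ * ε) * 4 * (ε / 2) = 4 / κ := by
        field_simp
      linarith
    have h3 := Real.add_one_le_exp (r / 2 * ε)
    have h4 : Real.exp (-(r / 2) * ε) = (Real.exp (r / 2 * ε))⁻¹ := by
      rw [← Real.exp_neg]
      congr 1
      ring
    rw [h4]
    have h5 : 4 / κ ≤ Real.exp (r / 2 * ε) := by linarith
    have h6 : (Real.exp (r / 2 * ε))⁻¹ ≤ (4 / κ)⁻¹ := by
      gcongr
    have h7 : (4 / κ)⁻¹ = κ / 4 := by
      rw [inv_div]
    linarith
  filter_upwards [Dq_mean hRH hl h hrp (κ := κ / 2) (by positivity),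
    (P_zero_lower hRH hrp hκ0).filter_mono hl, (h1 (r / 2) (by linarith)).filter_mono hl,
    (eventually_gt_atTop (1 : ℝ)).filter_mono hl] with T h2 h3 h4 hT
  have hX := X_pos hT
  have h5 := P_le_mass hRH hT (b T) hrp hε.le
  have h6 := P_le_zero (r := r / 2) (by positivity) T (b T)
  have h7 : P T r 0 ≤ P T r (b T) + K2 T (fun x => ph r (Real.log T * x) * q (b T) T x) := by
    unfold P
    rw [← K2_add]
    refine K2_mono fun x => ?_
    unfold q
    have e1 := wt_le x
    have e2 := ph_nonneg hrp (Real.log T * x)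
    have e3 := Real.cos_le_one (b T * (Real.log T * x))
    rw [zero_mul, Real.cos_zero]
    have e4 : 4 / (4 + x ^ 2) * (ph r (Real.log T * x) * (1 - Real.cos (b T * (Real.log T * x)))) ≤
        1 * (ph r (Real.log T * x) * (1 - Real.cos (b T * (Real.log T * x)))) := by
      refine mul_le_mul_of_nonneg_right e1.2 (mul_nonneg e2 (by linarith))
    linarith
  have h8 : Real.exp (-(r / 2) * ε) * (2 * P T (r / 2) (b T)) ≤ κ * X T := by
    have e1 : P T (r / 2) (b T) ≤ X T := h6.trans h4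
    have e2 := Real.exp_pos (-(r / 2) * ε)
    calc Real.exp (-(r / 2) * ε) * (2 * P T (r / 2) (b T)) ≤
        Real.exp (-(r / 2) * ε) * (2 * X T) := by gcongr
      _ = Real.exp (-(r / 2) * ε) * 2 * X T := by ring
      _ ≤ κ * X T := by gcongr
  have h9 : c * X T ≤ X T * (cum T (b T + ε) - cum T (b T - ε)) := by
    have e : c = 1 - 4 * κ := by
      rw [hκ]
      ring
    rw [e]
    linarith [mul_pos hκ0 hX]
  rw [mul_comm] at h9
  exact le_of_mul_le_mul_left h9 hX

/-! ### The lattice forms -/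

/-- `x` is off the lattice -/
def Off (b δ T x : ℝ) : Prop := ∀ n : ℤ, δ ≤ |b * (Real.log T * x) / (2 * Real.pi) - n|

open Classical in
/-- its indicator -/
noncomputable def off (b δ T x : ℝ) : ℝ := if Off b δ T x then 1 else 0

lemma off_nonneg (b δ T x : ℝ) : 0 ≤ off b δ T x := by
  unfold off
  split_ifs <;> norm_num

lemma q_ge_off {b δ T x : ℝ} (hδ : 0 < δ) : 8 * δ ^ 2 * off b δ T x ≤ q b T x := by
  unfold off
  split_ifs with h
  · have hpi := Real.pi_pos
    set y := b * (Real.log T * x) / (2 * Real.pi) with hy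
    have h1 := h (round y)
    have h2 := abs_sub_round y
    set θ := 2 * Real.pi * (y - round y) with hθ
    have h3 : q b T x = 1 - Real.cos θ := by
      unfold q
      congr 1
      rw [hθ, show 2 * Real.pi * (y - round y) = b * (Real.log T * x) - round y * (2 * Real.pi) by
        rw [hy]
        field_simp]
      rw [Real.cos_sub_int_mul_two_pi]
    have h4 : |θ| ≤ Real.pi := by
      rw [hθ, abs_mul, abs_of_pos (by positivity)]
      nlinarith
    have h5 := Real.cos_le_one_sub_mul_cos_sq h4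
    have h6 : (2 * Real.pi * δ) ^ 2 ≤ θ ^ 2 := by
      rw [← sq_abs θ]
      refine pow_le_pow_left₀ (by positivity) ?_ 2
      rw [hθ, abs_mul, abs_of_pos (by positivity : 0 < 2 * Real.pi)]
      gcongr
    have h7 : 2 / Real.pi ^ 2 * (2 * Real.pi * δ) ^ 2 = 8 * δ ^ 2 := by
      field_simp
      norm_num
    have h8 : 2 / Real.pi ^ 2 * (2 * Real.pi * δ) ^ 2 ≤ 2 / Real.pi ^ 2 * θ ^ 2 := by gcongr
    rw [h3]
    linarith
  · have := q_nonneg b T x
    linarith

lemma q_le_off {b δ T x : ℝ} : q b T x ≤ 2 * off b δ T x + 2 * Real.pi ^ 2 * δ ^ 2 := by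
  unfold off
  have hpi := Real.pi_pos
  split_ifs with h
  · have := q_le b T x
    have : 0 ≤ 2 * Real.pi ^ 2 * δ ^ 2 := by positivity
    linarith
  · unfold Off at h
    push Not at h
    obtain ⟨n, hn⟩ := h
    set y := b * (Real.log T * x) / (2 * Real.pi) with hy
    set θ := 2 * Real.pi * (y - n) with hθ
    have h3 : q b T x = 1 - Real.cos θ := by
      unfold q
      congr 1
      rw [hθ, show 2 * Real.pi * (y - n) = b * (Real.log T * x) - n * (2 * Real.pi) by
        rw [hy]
        field_simp]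
      rw [Real.cos_sub_int_mul_two_pi]
    have h5 := Real.one_sub_sq_div_two_le_cos (x := θ)
    have h6 : θ ^ 2 ≤ (2 * Real.pi * δ) ^ 2 := by
      rw [← sq_abs θ]
      refine pow_le_pow_left₀ (abs_nonneg _) ?_ 2
      rw [hθ, abs_mul, abs_of_pos (by positivity : 0 < 2 * Real.pi)]
      gcongr
    rw [h3]
    nlinarith

/-- few pairs are off the lattice -/
def PL (l : Filter ℝ) (b : ℝ → ℝ) : Prop := ∀ K δ κ : ℝ, 0 < K → 0 < δ → 0 < κ →
  ∀ᶠ T in l, K2 T (fun x => ind T K x * off (b T) δ T x) ≤ κ * X T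

open Classical in
/-- few zeros have a neighbour off the lattice -/
def ZL (l : Filter ℝ) (b : ℝ → ℝ) : Prop := ∀ K δ κ : ℝ, 0 < K → 0 < δ → 0 < κ →
  ∀ᶠ T in l, ∑ s ∈ H343.ZSide.Z0 T, H343.ZSide.mz s * (if ∃ s' ∈ H343.ZSide.Z0 T,
    |Real.log T * (s.im - s'.im)| ≤ K ∧ Off (b T) δ T (s.im - s'.im) then 1 else 0) ≤ κ * X T

lemma Dq_PL {b : ℝ → ℝ} (h : Dq l b) : PL l b := by
  intro K δ κ hK hδ hκ
  filter_upwards [h K hK (8 * δ ^ 2 * κ) (by positivity)] with T h1
  have h2 : K2 T (fun x => 8 * δ ^ 2 * (ind T K x * off (b T) δ T x)) ≤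
      K2 T (fun x => ind T K x * q (b T) T x) := by
    refine K2_mono fun x => ?_
    have h3 := mul_le_mul_of_nonneg_left (q_ge_off (b := b T) (T := T) (x := x) hδ)
      (ind_nonneg T K x)
    linarith
  rw [K2_smul] at h2
  have h3 : 8 * δ ^ 2 * K2 T (fun x => ind T K x * off (b T) δ T x) ≤ 8 * δ ^ 2 * (κ * X T) := by
    linarith
  exact le_of_mul_le_mul_left h3 (by positivity)

lemma PL_ZL {b : ℝ → ℝ} (h : PL l b) : ZL l b := by
  classical
  intro K δ κ hK hδ hκ
  filter_upwards [h K δ κ hK hδ hκ] with T h1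
  refine le_trans ?_ h1
  unfold K2
  refine Finset.sum_le_sum fun s hs => ?_
  have hm := mz_nonneg s
  split_ifs with hex
  · obtain ⟨s', hs', h2, h3⟩ := hex
    have h4 : H343.ZSide.mz s * H343.ZSide.mz s' * (ind T K (s.im - s'.im) *
        off (b T) δ T (s.im - s'.im)) ≤ ∑ s' ∈ H343.ZSide.Z0 T, H343.ZSide.mz s * H343.ZSide.mz s' *
        (ind T K (s.im - s'.im) * off (b T) δ T (s.im - s'.im)) :=
      Finset.single_le_sum (f := fun s' => H343.ZSide.mz s * H343.ZSide.mz s' *
        (ind T K (s.im - s'.im) * off (b T) δ T (s.im - s'.im))) (fun t _ =>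
          mul_nonneg (mul_nonneg hm (mz_nonneg t))
            (mul_nonneg (ind_nonneg _ _ _) (off_nonneg _ _ _ _))) hs'
    refine le_trans ?_ h4
    have h5 : ind T K (s.im - s'.im) = 1 := by
      unfold ind
      rw [if_pos h2]
    have h6 : off (b T) δ T (s.im - s'.im) = 1 := by
      unfold off
      rw [if_pos h3]
    rw [h5, h6, mul_one, mul_one, mul_one]
    have := one_le_mz hs'
    nlinarith
  · rw [mul_zero]
    exact Finset.sum_nonneg fun t _ => mul_nonneg (mul_nonneg hm (mz_nonneg t))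
      (mul_nonneg (ind_nonneg _ _ _) (off_nonneg _ _ _ _))

lemma ZL_Dq (hRH : RiemannHypothesis) (hl : l ≤ atTop) {b : ℝ → ℝ} (h : ZL l b) : Dq l b := by
  classical
  intro K hK κ hκ
  obtain ⟨C, hC, hpb⟩ := pairs_bound hRH K
  obtain ⟨R, hR, hui⟩ := unif_int hRH K (κ := κ / 8) (by positivity)
  have hpi := Real.pi_pos
  -- choose `δ`
  set δ : ℝ := Real.sqrt (κ / (8 * Real.pi ^ 2 * C)) with hδ
  have hδ0 : 0 < δ := Real.sqrt_pos.2 (by positivity)
  have hδ2 : 2 * Real.pi ^ 2 * δ ^ 2 * C = κ / 4 := by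
    rw [hδ, Real.sq_sqrt (by positivity)]
    field_simp
    ring
  filter_upwards [h K δ (κ / (8 * R)) hK hδ0 (by positivity), hpb.filter_mono hl,
    hui.filter_mono hl, (eventually_gt_atTop (1 : ℝ)).filter_mono hl] with T h1 h2 h3 hT
  have hX := X_pos hT
  set bad : ℂ → ℝ := fun s => if ∃ s' ∈ H343.ZSide.Z0 T,
    |Real.log T * (s.im - s'.im)| ≤ K ∧ Off (b T) δ T (s.im - s'.im) then 1 else 0 with hbad
  have hbad0 : ∀ s, 0 ≤ bad s := fun s => by simp only [hbad]; split_ifs <;> norm_num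
  have h4 : K2 T (fun x => ind T K x * q (b T) T x) ≤ 2 * Real.pi ^ 2 * δ ^ 2 * K2 T (ind T K) +
      ∑ s ∈ H343.ZSide.Z0 T, ∑ s' ∈ H343.ZSide.Z0 T,
        H343.ZSide.mz s * H343.ZSide.mz s' * (ind T K (s.im - s'.im) * (2 * bad s)) := by
    unfold K2
    rw [Finset.mul_sum, ← Finset.sum_add_distrib]
    refine Finset.sum_le_sum fun s _ => ?_
    rw [Finset.mul_sum, ← Finset.sum_add_distrib]
    refine Finset.sum_le_sum fun s' hs' => ?_
    have hmm : 0 ≤ H343.ZSide.mz s * H343.ZSide.mz s' := mul_nonneg (mz_nonneg s) (mz_nonneg s')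
    have h5 : ind T K (s.im - s'.im) * q (b T) T (s.im - s'.im) ≤
        2 * Real.pi ^ 2 * δ ^ 2 * ind T K (s.im - s'.im) +
          ind T K (s.im - s'.im) * (2 * bad s) := by
      by_cases hin : |Real.log T * (s.im - s'.im)| ≤ K
      · have h6 : ind T K (s.im - s'.im) = 1 := by
          unfold ind
          rw [if_pos hin]
        rw [h6, one_mul, mul_one, one_mul]
        have h7 := q_le_off (b := b T) (δ := δ) (T := T) (x := s.im - s'.im)
        by_cases hoff : Off (b T) δ T (s.im - s'.im)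
        · have h8 : bad s = 1 := by
            simp only [hbad]
            rw [if_pos ⟨s', hs', hin, hoff⟩]
          have h9 : off (b T) δ T (s.im - s'.im) = 1 := by
            unfold off
            rw [if_pos hoff]
          rw [h8]
          rw [h9] at h7
          linarith
        · have h9 : off (b T) δ T (s.im - s'.im) = 0 := by
            unfold off
            rw [if_neg hoff]
          rw [h9] at h7
          have := hbad0 s
          linarith
      · have h6 : ind T K (s.im - s'.im) = 0 := by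
          unfold ind
          rw [if_neg hin]
        rw [h6]
        simp
    have h6 := mul_le_mul_of_nonneg_left h5 hmm
    linarith
  rw [sum_fst] at h4
  have h5 : ∑ s ∈ H343.ZSide.Z0 T, H343.ZSide.mz s * (2 * bad s * nK T K s) ≤
      2 * R * (∑ s ∈ H343.ZSide.Z0 T, H343.ZSide.mz s * bad s) +
        2 * ∑ s ∈ H343.ZSide.Z0 T, H343.ZSide.mz s *
          (if R ≤ nK T K s then nK T K s else 0) := by
    rw [Finset.mul_sum, Finset.mul_sum, ← Finset.sum_add_distrib]
    refine Finset.sum_le_sum fun s _ => ?_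
    have hm := mz_nonneg s
    have hn := nK_nonneg T K s
    have hb := hbad0 s
    have hb1 : bad s ≤ 1 := by simp only [hbad]; split_ifs <;> norm_num
    have key : 2 * bad s * nK T K s ≤ 2 * R * bad s +
        2 * (if R ≤ nK T K s then nK T K s else 0) := by
      split_ifs with a
      · nlinarith
      · push Not at a
        nlinarith
    have := mul_le_mul_of_nonneg_left key hm
    linarith
  have h6 : 2 * Real.pi ^ 2 * δ ^ 2 * K2 T (ind T K) ≤ κ / 4 * X T := by
    calc 2 * Real.pi ^ 2 * δ ^ 2 * K2 T (ind T K) ≤ 2 * Real.pi ^ 2 * δ ^ 2 * (C * X T) := by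
          gcongr
      _ = 2 * Real.pi ^ 2 * δ ^ 2 * C * X T := by ring
      _ = _ := by rw [hδ2]
  have h7 : 2 * R * (∑ s ∈ H343.ZSide.Z0 T, H343.ZSide.mz s * bad s) ≤
      2 * R * (κ / (8 * R) * X T) := by gcongr
  have h8 : 2 * R * (κ / (8 * R) * X T) = κ / 4 * X T := by
    field_simp
    ring
  have h9 : 0 < κ * X T := by positivity
  linarith

end Pool.Agent.Helper69.AH
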