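import Pool.Agent.Helper69.AH.Three

/-! Mass one at `b` implies that the zeros are on a lattice. -/

open Filter Topology Complex MeasureTheory

namespace Pool.Agent.Helper69.AH

open H332B Pool.Agent.Helper84.OS Pool.Agent.Helper69.PC

variable {l : Filter ℝ}

/-- the Poisson mean of `F` around `b`, times `X` -/
noncomputable def P (T r b : ℝ) : ℝ :=
  K2 T (fun x => 4 / (4 + x ^ 2) * (ph r (Real.log T * x) * Real.cos (b * (Real.log T * x))))

lemma two_cos (hRH : RiemannHypothesis) (T b t : ℝ) :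
    Wp T ((b + t) * Real.log T) + Wp T ((b - t) * Real.log T) =
      ∑ s ∈ H343.ZSide.Z0 T, ∑ s' ∈ H343.ZSide.Z0 T,
        (H343.ZSide.mz s * H343.ZSide.mz s' * (4 / (4 + (s.im - s'.im) ^ 2) *
          (2 * Real.cos (b * (Real.log T * (s.im - s'.im)))))) *
        Real.cos (t * (Real.log T * (s.im - s'.im))) := by
  rw [wp_cos hRH, wp_cos hRH]
  unfold K2
  rw [← Finset.sum_add_distrib]
  refine Finset.sum_congr rfl fun s _ => ?_
  rw [← Finset.sum_add_distrib]
  refine Finset.sum_congr rfl fun s' _ => ?_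
  beta_reduce
  rw [add_mul b t, sub_mul b t, Real.cos_add, Real.cos_sub]
  ring

lemma P_int (hRH : RiemannHypothesis) (T b : ℝ) {r : ℝ} (hr : 0 < r) :
    IntegrableOn (fun t : ℝ => Real.exp (-r * t) *
      (Wp T ((b + t) * Real.log T) + Wp T ((b - t) * Real.log T))) (Set.Ioi 0) ∧
    ∫ t in Set.Ioi (0 : ℝ), Real.exp (-r * t) *
      (Wp T ((b + t) * Real.log T) + Wp T ((b - t) * Real.log T)) = 2 * P T r b := by
  have h1 : ∀ t : ℝ, Real.exp (-r * t) *
      (Wp T ((b + t) * Real.log T) + Wp T ((b - t) * Real.log T)) =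
      ∑ s ∈ H343.ZSide.Z0 T, ∑ s' ∈ H343.ZSide.Z0 T,
        (H343.ZSide.mz s * H343.ZSide.mz s' * (4 / (4 + (s.im - s'.im) ^ 2) *
          (2 * Real.cos (b * (Real.log T * (s.im - s'.im)))))) *
        (Real.exp (-r * t) * Real.cos (t * (Real.log T * (s.im - s'.im)))) := by
    intro t
    rw [two_cos hRH, Finset.mul_sum]
    refine Finset.sum_congr rfl fun s _ => ?_
    rw [Finset.mul_sum]
    refine Finset.sum_congr rfl fun s' _ => ?_
    ring
  simp_rw [h1]
  constructor
  · refine MeasureTheory.integrable_finsetSum _ fun s₁ _ => ?_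
    refine MeasureTheory.integrable_finsetSum _ fun s' _ => ?_
    exact (lap_int hr _).const_mul _
  · rw [MeasureTheory.integral_finsetSum]
    · unfold P K2
      rw [Finset.mul_sum]
      refine Finset.sum_congr rfl fun s₁ _ => ?_
      rw [MeasureTheory.integral_finsetSum]
      · rw [Finset.mul_sum]
        refine Finset.sum_congr rfl fun s' _ => ?_
        rw [MeasureTheory.integral_const_mul, lap_cos hr]
        ring
      · intro s' _
        exact (lap_int hr _).const_mul _
    · intro s₁ _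
      refine MeasureTheory.integrable_finsetSum _ fun s' _ => ?_
      exact (lap_int hr _).const_mul _

lemma sym_nonneg (T b t : ℝ) :
    0 ≤ Wp T ((b + t) * Real.log T) + Wp T ((b - t) * Real.log T) :=
  add_nonneg (Wn T _) (Wn T _)

lemma sym_cont (hRH : RiemannHypothesis) (T b : ℝ) : Continuous fun t : ℝ =>
    Wp T ((b + t) * Real.log T) + Wp T ((b - t) * Real.log T) := by
  have h := Wc hRH T
  exact (h.comp (continuous_const.add continuous_id)).add
    (h.comp (continuous_const.sub continuous_id))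

/-- the mass of a symmetric window -/
lemma sym_int (hRH : RiemannHypothesis) {T : ℝ} (hT : 1 < T) (b ε : ℝ) :
    ∫ t in (0 : ℝ)..ε, (Wp T ((b + t) * Real.log T) + Wp T ((b - t) * Real.log T)) =
      X T * (cum T (b + ε) - cum T (b - ε)) := by
  have hX := X_pos hT
  have h := Wc hRH T
  have h1 : ∫ t in (0 : ℝ)..ε, Wp T ((b + t) * Real.log T) =
      ∫ t in b..(b + ε), Wp T (t * Real.log T) := by
    have := intervalIntegral.integral_comp_add_left (a := 0) (b := ε)
      (fun t => Wp T (t * Real.log T)) b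
    rw [add_zero] at this
    exact this
  have h2 : ∫ t in (0 : ℝ)..ε, Wp T ((b - t) * Real.log T) =
      ∫ t in (b - ε)..b, Wp T (t * Real.log T) := by
    have := intervalIntegral.integral_comp_sub_left (a := 0) (b := ε)
      (fun t => Wp T (t * Real.log T)) b
    rw [sub_zero] at this
    exact this
  have i1 : IntervalIntegrable (fun t => Wp T ((b + t) * Real.log T)) volume 0 ε :=
    (h.comp (continuous_const.add continuous_id)).intervalIntegrable _ _
  have i2 : IntervalIntegrable (fun t => Wp T ((b - t) * Real.log T)) volume 0 ε :=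
    (h.comp (continuous_const.sub continuous_id)).intervalIntegrable _ _
  rw [intervalIntegral.integral_add i1 i2, h1, h2, cum_sub hRH, mul_div_cancel₀ _ hX.ne', add_comm,
    intervalIntegral.integral_add_adjacent_intervals (h.intervalIntegrable _ _)
      (h.intervalIntegrable _ _)]

/-- the mass of a window is controlled by the Poisson mean -/
lemma mass_le_P (hRH : RiemannHypothesis) {T : ℝ} (hT : 1 < T) (b : ℝ) {r ε : ℝ} (hr : 0 < r)
    (hε : 0 ≤ ε) : Real.exp (-r * ε) * (X T * (cum T (b + ε) - cum T (b - ε))) ≤ 2 * P T r b := by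
  obtain ⟨h1, h2⟩ := P_int hRH T b hr
  rw [← h2, ← sym_int hRH hT, ← intervalIntegral.integral_const_mul]
  have hc := sym_cont hRH T b
  have h3 : ∫ t in (0 : ℝ)..ε, Real.exp (-r * ε) *
      (Wp T ((b + t) * Real.log T) + Wp T ((b - t) * Real.log T)) ≤
      ∫ t in (0 : ℝ)..ε, Real.exp (-r * t) *
      (Wp T ((b + t) * Real.log T) + Wp T ((b - t) * Real.log T)) := by
    refine intervalIntegral.integral_mono_on hε ((hc.const_mul _).intervalIntegrable _ _) ?_
      fun t ht => ?_
    · exact ((by fun_prop : Continuous fun t : ℝ => Real.exp (-r * t)).mul hc).intervalIntegrable _ _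
    · refine mul_le_mul_of_nonneg_right ?_ (sym_nonneg T b t)
      rw [Real.exp_le_exp]
      nlinarith [ht.2]
  refine h3.trans ?_
  rw [intervalIntegral.integral_of_le hε]
  refine MeasureTheory.setIntegral_mono_set h1 ?_ ?_
  · refine Eventually.of_forall fun t => ?_
    exact mul_nonneg (Real.exp_pos _).le (sym_nonneg T b t)
  · exact Set.Ioc_subset_Ioi_self.eventuallyLE

/-- the Poisson mean is controlled by the mass of a window -/
lemma P_le_mass (hRH : RiemannHypothesis) {T : ℝ} (hT : 1 < T) (b : ℝ) {r ε : ℝ} (hr : 0 < r)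
    (hε : 0 ≤ ε) : 2 * P T r b ≤ X T * (cum T (b + ε) - cum T (b - ε)) +
      Real.exp (-(r / 2) * ε) * (2 * P T (r / 2) b) := by
  obtain ⟨h1, h2⟩ := P_int hRH T b hr
  obtain ⟨h3, h4⟩ := P_int hRH T b (r := r / 2) (by positivity)
  rw [← h2, ← h4, ← sym_int hRH hT]
  have hc := sym_cont hRH T b
  have hsplit : Set.Ioi (0 : ℝ) = Set.Ioc 0 ε ∪ Set.Ioi ε := (Set.Ioc_union_Ioi_eq_Ioi hε).symm
  have hi1 := h1.mono_set (Set.Ioc_subset_Ioi_self : Set.Ioc (0 : ℝ) ε ⊆ Set.Ioi 0)
  have hi2 := h1.mono_set (Set.Ioi_subset_Ioi hε)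
  rw [hsplit, MeasureTheory.setIntegral_union (Set.Ioc_disjoint_Ioi le_rfl) measurableSet_Ioi
    hi1 hi2, ← hsplit]
  refine add_le_add ?_ ?_
  · rw [← intervalIntegral.integral_of_le hε]
    refine intervalIntegral.integral_mono_on hε ?_ (hc.intervalIntegrable _ _) fun t ht => ?_
    · exact ((by fun_prop : Continuous fun t : ℝ => Real.exp (-r * t)).mul hc).intervalIntegrable _ _
    · refine mul_le_of_le_one_left (sym_nonneg T b t) ?_
      rw [Real.exp_le_one_iff]
      nlinarith [ht.1]
  · rw [← MeasureTheory.integral_const_mul]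
    have hi3 : IntegrableOn (fun t : ℝ => Real.exp (-(r / 2) * ε) * (Real.exp (-(r / 2) * t) *
      (Wp T ((b + t) * Real.log T) + Wp T ((b - t) * Real.log T)))) (Set.Ioi 0) := h3.const_mul _
    refine le_trans (MeasureTheory.setIntegral_mono_on hi2
      (hi3.mono_set (Set.Ioi_subset_Ioi hε)) measurableSet_Ioi fun t ht => ?_)
      (MeasureTheory.setIntegral_mono_set hi3 ?_ (Set.Ioi_subset_Ioi hε).eventuallyLE)
    · rw [← mul_assoc, ← Real.exp_add]
      refine mul_le_mul_of_nonneg_right ?_ (sym_nonneg T b t)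
      rw [Real.exp_le_exp]
      have : ε < t := ht
      nlinarith
    · refine Eventually.of_forall fun t => ?_
      exact mul_nonneg (Real.exp_pos _).le (mul_nonneg (Real.exp_pos _).le (sym_nonneg T b t))

lemma wt_le (x : ℝ) : 0 ≤ 4 / (4 + x ^ 2) ∧ 4 / (4 + x ^ 2) ≤ 1 := by
  refine ⟨by positivity, ?_⟩
  rw [div_le_one (by positivity)]
  linarith [sq_nonneg x]

/-- mass one in short windows around `b T` -/
def M1 (l : Filter ℝ) (b : ℝ → ℝ) : Prop := ∀ ε : ℝ, 0 < ε → ∀ c : ℝ, c < 1 →
  ∀ᶠ T in l, c ≤ cum T (b T + ε) - cum T (b T - ε)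

/-- the zeros are on a lattice, in integrated form -/
def Dq (l : Filter ℝ) (b : ℝ → ℝ) : Prop := ∀ K : ℝ, 0 < K → ∀ κ : ℝ, 0 < κ →
  ∀ᶠ T in l, K2 T (fun x => ind T K x * q (b T) T x) ≤ κ * X T

/-- the Poisson mean of the defect is small -/
lemma M1_mean (hRH : RiemannHypothesis) (hl : l ≤ atTop) {b : ℝ → ℝ} (h : M1 l b) :
    ∃ r0 : ℝ, 1 ≤ r0 ∧ ∀ r : ℝ, r0 ≤ r → ∀ᶠ T in l,
      K2 T (fun x => ph r (Real.log T * x) * q (b T) T x) ≤ 4 / r ^ 2 * X T := by
  obtain ⟨r0, hr0, hup⟩ := ph_upper hRH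
  refine ⟨r0, hr0, fun r hr => ?_⟩
  have hrp : 0 < r := by linarith
  have hr1 : 1 ≤ r := hr0.trans hr
  set u := 1 / r ^ 2 with hu
  have hu0 : 0 < u := by positivity
  have hu1 : u ≤ 1 := by
    rw [hu, div_le_one (by positivity)]
    nlinarith
  have e3 : 3 / r ^ 2 = 3 * u := by
    rw [hu]
    ring
  have e4 : 4 / r ^ 2 = 4 * u := by
    rw [hu]
    ring
  -- `ε` with `exp (-r ε) ≥ 1 - u / 2`
  set ε := u / (2 * r) with hε
  have hε0 : 0 < ε := by positivity
  have h1 : 1 - u / 2 ≤ Real.exp (-r * ε) := by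
    have h2 := Real.add_one_le_exp (-r * ε)
    have h3 : -r * ε = -(u / 2) := by
      rw [hε]
      field_simp
    rw [h3] at h2 ⊢
    linarith
  filter_upwards [(hup r hr).filter_mono hl, h ε hε0 (1 - u / 2) (by linarith),
    (unweight r hrp (η := u / 2) (by positivity)).filter_mono hl,
    (eventually_gt_atTop (1 : ℝ)).filter_mono hl] with T h2 h3 h4 hT
  have hX := X_pos hT
  have h5 := mass_le_P hRH hT (b T) hrp hε0.le
  have h6 : (1 - u / 2) * (X T * (1 - u / 2)) ≤ 2 * P T r (b T) := by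
    refine le_trans ?_ h5
    have : 0 ≤ 1 - u / 2 := by linarith
    gcongr
  have h7 : K2 T (fun x => ph r (Real.log T * x) * q (b T) T x) ≤
      K2 T (fun x => ph r (Real.log T * x)) - P T r (b T) +
        K2 T (fun x => (1 - 4 / (4 + x ^ 2)) * ph r (Real.log T * x)) := by
    have h8 : K2 T (fun x => ph r (Real.log T * x) * q (b T) T x) ≤
        K2 T (fun x => (ph r (Real.log T * x) + (-1) * (4 / (4 + x ^ 2) *
          (ph r (Real.log T * x) * Real.cos (b T * (Real.log T * x))))) +
          (1 - 4 / (4 + x ^ 2)) * ph r (Real.log T * x)) := by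
      refine K2_mono fun x => ?_
      unfold q
      have e5 := ph_nonneg hrp (Real.log T * x)
      have e6 : 0 ≤ 1 - 4 / (4 + x ^ 2) := by linarith [(wt_le x).2]
      have e7 := Real.neg_one_le_cos (b T * (Real.log T * x))
      nlinarith [mul_nonneg e6 e5, mul_nonneg (mul_nonneg e6 e5)
        (by linarith : 0 ≤ 1 + Real.cos (b T * (Real.log T * x)))]
    rw [K2_add, K2_add, K2_smul] at h8
    unfold P
    linarith
  rw [e3] at h2
  rw [e4]
  have h8 : 0 < u * X T := by positivity
  nlinarith [mul_pos h8 hu0]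

/-- **mass one implies the lattice** -/
theorem M1_Dq (hRH : RiemannHypothesis) (hl : l ≤ atTop) {b : ℝ → ℝ} (h : M1 l b) : Dq l b := by
  classical
  intro K hK κ hκ
  obtain ⟨r0, hr0, hm⟩ := M1_mean hRH hl h
  obtain ⟨R, hR, hui⟩ := unif_int hRH K (κ := κ / 16) (by positivity)
  set c : ℝ := κ / (80 * R) with hc
  have hc0 : 0 < c := by positivity
  set r : ℝ := max r0 (max K (max 1 (56 * R / c * (4 / κ)))) with hr
  have hr1 : r0 ≤ r := le_max_left _ _
  have hrK : K ≤ r := (le_max_left _ _).trans (le_max_right _ _)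
  have hr11 : 1 ≤ r := ((le_max_left _ _).trans (le_max_right _ _)).trans (le_max_right _ _)
  have hrc : 56 * R / c * (4 / κ) ≤ r :=
    ((le_max_right _ _).trans (le_max_right _ _)).trans (le_max_right _ _)
  have hrp : 0 < r := by linarith
  filter_upwards [hm r hr1, hui.filter_mono hl, (sparse hrp hc0).filter_mono hl,
    (eventually_gt_atTop (1 : ℝ)).filter_mono hl] with T h1 h2 h3 hT
  have hX := X_pos hT
  have h4 := defect_le (b := b T) (T := T) hrp hrK hR hc0
  refine h4.trans ?_
  have h5 : 2 * R * (∑ s ∈ H343.ZSide.Z0 T, H343.ZSide.mz s *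
      (if nK T r s < c * r then (1 : ℝ) else 0)) ≤ 2 * R * (10 * c * X T) := by gcongr
  have h6 : 14 * R / c * K2 T (fun x => ph r (Real.log T * x) * q (b T) T x) ≤
      14 * R / c * (4 / r ^ 2 * X T) := by gcongr
  have h7 : 2 * R * (10 * c * X T) = κ / 4 * X T := by
    rw [hc]
    field_simp
    ring
  have h8 : 14 * R / c * (4 / r ^ 2 * X T) ≤ κ / 4 * X T := by
    have h9 : 14 * R / c * (4 / r ^ 2) ≤ κ / 4 := by
      have h10 : 56 * R / c ≤ κ / 4 * r := by
        have : 56 * R / c * (4 / κ) * (κ / 4) ≤ r * (κ / 4) := by gcongr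
        have e : 56 * R / c * (4 / κ) * (κ / 4) = 56 * R / c := by
          field_simp
        linarith
      have h11 : κ / 4 * r ≤ κ / 4 * r ^ 2 := by
        have : r ≤ r ^ 2 := by nlinarith
        gcongr
      have h12 : 14 * R / c * (4 / r ^ 2) = 56 * R / c / r ^ 2 := by
        field_simp
        ring
      rw [h12, div_le_iff₀ (by positivity)]
      linarith
    nlinarith
  have h9 : 0 < κ * X T := by positivity
  linarith

end Pool.Agent.Helper69.AH
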