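import Pool.Agent.Helper69.AH.Grp

/-! The consecutive gaps. -/

open Filter Topology Complex MeasureTheory

namespace Pool.Agent.Helper69.AH

open H332B Pool.Agent.Helper84.OS Pool.Agent.Helper69.PC

variable {l : Filter ℝ}

/-- `s'` is a zero following `s` -/
def Nxt (T : ℝ) (s s' : ℂ) : Prop :=
  s' ∈ H343.ZSide.Z0 T ∧ s.im < s'.im ∧ ∀ u ∈ H343.ZSide.Z0 T, s.im < u.im → s'.im ≤ u.im

/-- the gap after `s` is off the lattice -/
def BadG (b δ T : ℝ) (s : ℂ) : Prop := ∃ s', Nxt T s s' ∧ Off b δ T (s'.im - s.im)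

open Classical in
/-- few gaps are off the lattice -/
def GapLat (l : Filter ℝ) (b : ℝ → ℝ) : Prop := ∀ δ κ : ℝ, 0 < δ → 0 < κ →
  ∀ᶠ T in l, ∑ s ∈ H343.ZSide.Z0 T, (if BadG (b T) δ T s then (1 : ℝ) else 0) ≤ κ * X T

lemma same_im (hRH : RiemannHypothesis) {T : ℝ} {s t : ℂ} (hs : s ∈ H343.ZSide.Z0 T)
    (ht : t ∈ H343.ZSide.Z0 T) (h : s.im = t.im) : s = t :=
  Complex.ext (by rw [WPC.re_half hRH T s hs, WPC.re_half hRH T t ht]) h

lemma off_symm {b δ T x : ℝ} (h : Off b δ T x) : Off b δ T (-x) := by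
  intro n
  have h1 := h (-n)
  rw [show b * (Real.log T * -x) / (2 * Real.pi) - n =
    -(b * (Real.log T * x) / (2 * Real.pi) - ((-n : ℤ) : ℝ)) by push_cast; ring, abs_neg]
  exact h1

lemma exists_nxt {T : ℝ} {s t : ℂ} (ht : t ∈ H343.ZSide.Z0 T) (hst : s.im < t.im) :
    ∃ s', Nxt T s s' ∧ s'.im ≤ t.im := by
  classical
  have hne : ((H343.ZSide.Z0 T).filter fun u => s.im < u.im).Nonempty :=
    ⟨t, Finset.mem_filter.2 ⟨ht, hst⟩⟩
  obtain ⟨s', hs', hmin⟩ := Finset.exists_min_image _ (fun u : ℂ => u.im) hne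
  rw [Finset.mem_filter] at hs'
  refine ⟨s', ⟨hs'.1, hs'.2, fun u hu hsu => hmin u (Finset.mem_filter.2 ⟨hu, hsu⟩)⟩,
    hmin t (Finset.mem_filter.2 ⟨ht, hst⟩)⟩

open Classical in
/-- the zeros between `s` and `t` -/
noncomputable def Btw (T : ℝ) (s t : ℂ) : Finset ℂ :=
  (H343.ZSide.Z0 T).filter fun u => s.im ≤ u.im ∧ u.im < t.im

/-- chaining the gaps -/
lemma chain {b δ T : ℝ} (hδ : 0 < δ) {t : ℂ} (ht : t ∈ H343.ZSide.Z0 T) : ∀ m : ℕ, ∀ s : ℂ,
    s ∈ H343.ZSide.Z0 T → s.im ≤ t.im → (Btw T s t).card ≤ m →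
    (∀ u ∈ Btw T s t, ¬ BadG b δ T u) →
    ∃ n : ℤ, |b * (Real.log T * (t.im - s.im)) / (2 * Real.pi) - n| ≤ m * δ := by
  classical
  intro m
  induction m with
  | zero =>
    intro s hs hst hcard _
    have h1 : Btw T s t = ∅ := Finset.card_eq_zero.1 (Nat.le_zero.1 hcard)
    have h2 : s.im = t.im := by
      by_contra hne
      have h3 : s ∈ Btw T s t := by
        unfold Btw
        rw [Finset.mem_filter]
        exact ⟨hs, le_rfl, lt_of_le_of_ne hst hne⟩
      rw [h1] at h3
      exact absurd h3 (Finset.notMem_empty s)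
    exact ⟨0, by rw [h2]; simp⟩
  | succ m ih =>
    intro s hs hst hcard hgood
    rcases hst.eq_or_lt with h | h
    · exact ⟨0, by rw [h]; simp; positivity⟩
    · obtain ⟨s', hs', hs't⟩ := exists_nxt ht h
      have hsb : s ∈ Btw T s t := by
        unfold Btw
        rw [Finset.mem_filter]
        exact ⟨hs, le_rfl, h⟩
      have h1 := hgood s hsb
      have h2 : ¬ Off b δ T (s'.im - s.im) := fun h3 => h1 ⟨s', hs', h3⟩
      unfold Off at h2
      push Not at h2
      obtain ⟨n₀, hn₀⟩ := h2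
      have hsub : Btw T s' t ⊆ (Btw T s t).erase s := by
        intro u hu
        unfold Btw at hu ⊢
        rw [Finset.mem_filter] at hu
        rw [Finset.mem_erase, Finset.mem_filter]
        refine ⟨?_, hu.1, hs'.2.1.le.trans hu.2.1, hu.2.2⟩
        rintro rfl
        exact absurd hs'.2.1 (not_lt.2 hu.2.1)
      have hcard' : (Btw T s' t).card ≤ m := by
        have h3 := Finset.card_le_card hsub
        rw [Finset.card_erase_of_mem hsb] at h3
        omega
      obtain ⟨n₁, hn₁⟩ := ih s' hs'.1 hs't hcard' fun u hu =>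
        hgood u (Finset.mem_of_mem_erase (hsub hu))
      refine ⟨n₀ + n₁, ?_⟩
      have h3 : b * (Real.log T * (t.im - s.im)) / (2 * Real.pi) - ((n₀ + n₁ : ℤ) : ℝ) =
          (b * (Real.log T * (s'.im - s.im)) / (2 * Real.pi) - n₀) +
          (b * (Real.log T * (t.im - s'.im)) / (2 * Real.pi) - n₁) := by
        push_cast
        ring
      rw [h3]
      refine (abs_add_le _ _).trans ?_
      push_cast
      linarith

lemma q_small {b T x y : ℝ} (h : ∃ n : ℤ, |b * (Real.log T * x) / (2 * Real.pi) - n| ≤ y) :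
    q b T x ≤ 2 * Real.pi ^ 2 * y ^ 2 := by
  obtain ⟨n, hn⟩ := h
  have hpi := Real.pi_pos
  set y' := b * (Real.log T * x) / (2 * Real.pi) with hy
  set θ := 2 * Real.pi * (y' - n) with hθ
  have h3 : q b T x = 1 - Real.cos θ := by
    unfold q
    congr 1
    rw [hθ, show 2 * Real.pi * (y' - n) = b * (Real.log T * x) - n * (2 * Real.pi) by
      rw [hy]
      field_simp]
    rw [Real.cos_sub_int_mul_two_pi]
  have h5 := Real.one_sub_sq_div_two_le_cos (x := θ)
  have h6 : θ ^ 2 ≤ (2 * Real.pi * y) ^ 2 := by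
    rw [← sq_abs θ]
    refine pow_le_pow_left₀ (abs_nonneg _) ?_ 2
    rw [hθ, abs_mul, abs_of_pos (by positivity : 0 < 2 * Real.pi)]
    gcongr
  rw [h3]
  nlinarith

open Classical in
/-- the pairs without a bad gap between them -/
lemma pair_q {b δ T K R : ℝ} (hT : 1 < T) (hδ : 0 < δ) {s t : ℂ} (hs : s ∈ H343.ZSide.Z0 T)
    (ht : t ∈ H343.ZSide.Z0 T) (hK : |Real.log T * (s.im - t.im)| ≤ K)
    (hn : nK T K s < R) :
    q b T (s.im - t.im) ≤ 2 * Real.pi ^ 2 * ((R + 1) * δ) ^ 2 +
      2 * ∑ u ∈ H343.ZSide.Z0 T, ind T K (s.im - u.im) * (if BadG b δ T u then 1 else 0) := by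
  have hL := Real.log_pos hT
  have hpi := Real.pi_pos
  have hnn : 0 ≤ nK T K s := nK_nonneg T K s
  have hR0 : 0 < R := lt_of_le_of_lt hnn hn
  have hterm : ∀ u ∈ H343.ZSide.Z0 T, 0 ≤ ind T K (s.im - u.im) *
      (if BadG b δ T u then (1 : ℝ) else 0) := fun u _ =>
    mul_nonneg (ind_nonneg _ _ _) (by split_ifs <;> norm_num)
  have hsum0 : 0 ≤ ∑ u ∈ H343.ZSide.Z0 T, ind T K (s.im - u.im) *
      (if BadG b δ T u then (1 : ℝ) else 0) := Finset.sum_nonneg hterm
  -- reduction to an ordered pair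
  have main : ∀ p r : ℂ, p ∈ H343.ZSide.Z0 T → r ∈ H343.ZSide.Z0 T → p.im ≤ r.im →
      (∀ u : ℂ, p.im ≤ u.im → u.im < r.im → |Real.log T * (s.im - u.im)| ≤ K) →
      q b T (r.im - p.im) ≤ 2 * Real.pi ^ 2 * ((R + 1) * δ) ^ 2 +
      2 * ∑ u ∈ H343.ZSide.Z0 T, ind T K (s.im - u.im) * (if BadG b δ T u then 1 else 0) := by
    intro p r hp hr hpr hbt
    by_cases hgood : ∀ u ∈ Btw T p r, ¬ BadG b δ T u
    · have hcard : ((Btw T p r).card : ℝ) ≤ nK T K s := by
        rw [← nsmul_one, ← Finset.sum_const]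
        unfold nK Ak
        refine le_trans ?_ (Finset.sum_le_sum_of_subset_of_nonneg
          (f := fun u => H343.ZSide.mz u * ind T K (s.im - u.im))
          (Finset.filter_subset _ _ : Btw T p r ⊆ _)
          fun u _ _ => mul_nonneg (mz_nonneg u) (ind_nonneg _ _ _))
        refine Finset.sum_le_sum fun u hu => ?_
        unfold Btw at hu
        rw [Finset.mem_filter] at hu
        have h1 : ind T K (s.im - u.im) = 1 := by
          unfold ind
          rw [if_pos (hbt u hu.2.1 hu.2.2)]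
        rw [h1, mul_one]
        exact one_le_mz hu.1
      have h2 := chain hδ hr (⌈R⌉₊) p hp hpr (by
        have h3 : ((Btw T p r).card : ℝ) ≤ (⌈R⌉₊ : ℝ) := hcard.trans (hn.le.trans (Nat.le_ceil R))
        exact_mod_cast h3) hgood
      have h3 := q_small h2
      have h4 : (⌈R⌉₊ : ℝ) ≤ R + 1 := (Nat.ceil_lt_add_one hR0.le).le
      have h5 : 2 * Real.pi ^ 2 * ((⌈R⌉₊ : ℝ) * δ) ^ 2 ≤
          2 * Real.pi ^ 2 * ((R + 1) * δ) ^ 2 := by gcongr
      linarith
    · push Not at hgood
      obtain ⟨u, hu, hbad⟩ := hgood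
      unfold Btw at hu
      rw [Finset.mem_filter] at hu
      have h1 := Finset.single_le_sum hterm hu.1
      have h2 : ind T K (s.im - u.im) = 1 := by
        unfold ind
        rw [if_pos (hbt u hu.2.1 hu.2.2)]
      rw [h2, if_pos hbad, mul_one] at h1
      have h3 := q_le b T (r.im - p.im)
      have h4 : 0 ≤ 2 * Real.pi ^ 2 * ((R + 1) * δ) ^ 2 := by positivity
      linarith
  rw [abs_mul, abs_of_pos hL] at hK
  rcases le_total s.im t.im with h | h
  · have h1 := main s t hs ht h (by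
      intro u hu1 hu2
      rw [abs_mul, abs_of_pos hL]
      refine le_trans ?_ hK
      refine mul_le_mul_of_nonneg_left ?_ hL.le
      rw [abs_of_nonpos (by linarith), abs_of_nonpos (by linarith)]
      linarith)
    rwa [← q_neg, neg_sub] at h1
  · exact main t s ht hs h (by
      intro u hu1 hu2
      rw [abs_mul, abs_of_pos hL]
      refine le_trans ?_ hK
      refine mul_le_mul_of_nonneg_left ?_ hL.le
      rw [abs_of_nonneg (by linarith), abs_of_nonneg (by linarith)]
      linarith)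

/-- **few bad gaps imply the lattice** -/
theorem GL_Dq (hRH : RiemannHypothesis) (hl : l ≤ atTop) {b : ℝ → ℝ} (h : GapLat l b) : Dq l b := by
  classical
  intro K hK κ hκ
  obtain ⟨C, hC, hpb⟩ := pairs_bound hRH K
  obtain ⟨R, hR, hui⟩ := unif_int hRH K (κ := κ / 16) (by positivity)
  obtain ⟨R', hR', hui'⟩ := unif_int hRH K (κ := κ / (16 * R)) (by positivity)
  have hpi := Real.pi_pos
  -- choose `δ`
  set δ : ℝ := Real.sqrt (κ / (8 * Real.pi ^ 2 * C)) / (R + 1) with hδ
  have hδ0 : 0 < δ := div_pos (Real.sqrt_pos.2 (by positivity)) (by linarith)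
  have hδ2 : 2 * Real.pi ^ 2 * ((R + 1) * δ) ^ 2 * C = κ / 4 := by
    rw [hδ, mul_div_cancel₀ _ (by linarith : R + 1 ≠ 0), Real.sq_sqrt (by positivity)]
    field_simp
    ring
  filter_upwards [h δ (κ / (16 * R * R')) hδ0 (by positivity), hpb.filter_mono hl,
    hui.filter_mono hl, hui'.filter_mono hl,
    (eventually_gt_atTop (1 : ℝ)).filter_mono hl] with T h1 h2 h3 h4 hT
  have hX := X_pos hT
  set bad : ℂ → ℝ := fun u => if BadG (b T) δ T u then 1 else 0 with hbad
  have hbad0 : ∀ s, 0 ≤ bad s := fun s => by simp only [hbad]; split_ifs <;> norm_num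
  have hbad1 : ∀ s, bad s ≤ 1 := fun s => by simp only [hbad]; split_ifs <;> norm_num
  set Bs : ℂ → ℝ := fun s => ∑ u ∈ H343.ZSide.Z0 T, ind T K (s.im - u.im) * bad u with hBs
  have hBs0 : ∀ s, 0 ≤ Bs s := fun s =>
    Finset.sum_nonneg fun u _ => mul_nonneg (ind_nonneg _ _ _) (hbad0 u)
  set η : ℝ := 2 * Real.pi ^ 2 * ((R + 1) * δ) ^ 2 with hη
  have hη0 : 0 ≤ η := by positivity
  set hi : ℂ → ℝ := fun s => if R ≤ nK T K s then 1 else 0 with hhi
  set lo : ℂ → ℝ := fun s => if R ≤ nK T K s then 0 else 1 with hlo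
  have hhi0 : ∀ s, 0 ≤ hi s := fun s => by simp only [hhi]; split_ifs <;> norm_num
  have hlo0 : ∀ s, 0 ≤ lo s := fun s => by simp only [hlo]; split_ifs <;> norm_num
  have h5 : K2 T (fun x => ind T K x * q (b T) T x) ≤ η * K2 T (ind T K) +
      ∑ s ∈ H343.ZSide.Z0 T, ∑ s' ∈ H343.ZSide.Z0 T,
        H343.ZSide.mz s * H343.ZSide.mz s' * (ind T K (s.im - s'.im) *
          (2 * hi s + 2 * (lo s * Bs s))) := by
    unfold K2
    rw [Finset.mul_sum, ← Finset.sum_add_distrib]
    refine Finset.sum_le_sum fun s hs => ?_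
    rw [Finset.mul_sum, ← Finset.sum_add_distrib]
    refine Finset.sum_le_sum fun s' hs' => ?_
    have hmm : 0 ≤ H343.ZSide.mz s * H343.ZSide.mz s' := mul_nonneg (mz_nonneg s) (mz_nonneg s')
    have h6 : ind T K (s.im - s'.im) * q (b T) T (s.im - s'.im) ≤
        η * ind T K (s.im - s'.im) +
          ind T K (s.im - s'.im) * (2 * hi s + 2 * (lo s * Bs s)) := by
      by_cases hin : |Real.log T * (s.im - s'.im)| ≤ K
      · have e1 : ind T K (s.im - s'.im) = 1 := by
          unfold ind
          rw [if_pos hin]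
        rw [e1, one_mul, mul_one, one_mul]
        have e2 := hBs0 s
        by_cases a : R ≤ nK T K s
        · have e3 : hi s = 1 := by simp only [hhi]; rw [if_pos a]
          have e4 := q_le (b T) T (s.im - s'.im)
          have e5 := mul_nonneg (hlo0 s) e2
          rw [e3]
          linarith
        · have e3 : lo s = 1 := by simp only [hlo]; rw [if_neg a]
          have e4 := pair_q (b := b T) hT hδ0 hs hs' hin (not_le.1 a)
          have e5 := hhi0 s
          rw [e3, one_mul]
          linarith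
      · have e1 : ind T K (s.im - s'.im) = 0 := by
          unfold ind
          rw [if_neg hin]
        rw [e1]
        simp
    have h7 := mul_le_mul_of_nonneg_left h6 hmm
    linarith
  rw [sum_fst] at h5
  have h6 : ∑ s ∈ H343.ZSide.Z0 T, H343.ZSide.mz s * ((2 * hi s + 2 * (lo s * Bs s)) *
      nK T K s) ≤ 2 * (∑ s ∈ H343.ZSide.Z0 T, H343.ZSide.mz s *
        (if R ≤ nK T K s then nK T K s else 0)) +
        2 * R * ∑ s ∈ H343.ZSide.Z0 T, H343.ZSide.mz s * Bs s := by
    rw [Finset.mul_sum, Finset.mul_sum, ← Finset.sum_add_distrib]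
    refine Finset.sum_le_sum fun s _ => ?_
    have hm := mz_nonneg s
    have hn := nK_nonneg T K s
    have e2 := hBs0 s
    have key : (2 * hi s + 2 * (lo s * Bs s)) * nK T K s ≤
        2 * (if R ≤ nK T K s then nK T K s else 0) + 2 * R * Bs s := by
      by_cases a : R ≤ nK T K s
      · have e3 : hi s = 1 := by simp only [hhi]; rw [if_pos a]
        have e4 : lo s = 0 := by simp only [hlo]; rw [if_pos a]
        rw [e3, e4, if_pos a]
        have : 0 ≤ R * Bs s := by positivity
        linarith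
      · have e3 : hi s = 0 := by simp only [hhi]; rw [if_neg a]
        have e4 : lo s = 1 := by simp only [hlo]; rw [if_neg a]
        rw [e3, e4, if_neg a]
        push Not at a
        have : Bs s * nK T K s ≤ Bs s * R := by gcongr
        linarith
    have := mul_le_mul_of_nonneg_left key hm
    linarith
  -- the sum of `Bs`
  have h7 : ∑ s ∈ H343.ZSide.Z0 T, H343.ZSide.mz s * Bs s =
      ∑ u ∈ H343.ZSide.Z0 T, bad u * nK T K u := by
    simp only [hBs]
    simp_rw [Finset.mul_sum]
    rw [Finset.sum_comm]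
    refine Finset.sum_congr rfl fun u _ => ?_
    unfold nK Ak
    rw [Finset.mul_sum]
    refine Finset.sum_congr rfl fun s _ => ?_
    rw [ind_sub T K s.im u.im]
    ring
  have h8 : ∑ u ∈ H343.ZSide.Z0 T, bad u * nK T K u ≤
      R' * (∑ u ∈ H343.ZSide.Z0 T, bad u) + ∑ u ∈ H343.ZSide.Z0 T, H343.ZSide.mz u *
        (if R' ≤ nK T K u then nK T K u else 0) := by
    rw [Finset.mul_sum, ← Finset.sum_add_distrib]
    refine Finset.sum_le_sum fun u hu => ?_
    have hn := nK_nonneg T K u
    have e1 := hbad0 u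
    have e2 := hbad1 u
    have e3 := one_le_mz hu
    split_ifs with a
    · have : bad u * nK T K u ≤ 1 * nK T K u := by gcongr
      nlinarith [mul_nonneg hR'.le e1]
    · push Not at a
      have : bad u * nK T K u ≤ bad u * R' := by gcongr
      linarith
  have h9 : R' * (∑ u ∈ H343.ZSide.Z0 T, bad u) ≤ R' * (κ / (16 * R * R') * X T) := by gcongr
  have h10 : R' * (κ / (16 * R * R') * X T) = κ / (16 * R) * X T := by
    field_simp
  have h11 : 2 * R * (∑ s ∈ H343.ZSide.Z0 T, H343.ZSide.mz s * Bs s) ≤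
      2 * R * (κ / (16 * R) * X T + κ / (16 * R) * X T) := by
    rw [h7]
    refine mul_le_mul_of_nonneg_left ?_ (by positivity)
    linarith
  have h12 : 2 * R * (κ / (16 * R) * X T + κ / (16 * R) * X T) = κ / 4 * X T := by
    field_simp
    ring
  have h13 : η * K2 T (ind T K) ≤ κ / 4 * X T := by
    calc η * K2 T (ind T K) ≤ η * (C * X T) := by gcongr
      _ = η * C * X T := by ring
      _ = _ := by rw [hδ2]
  have h14 : 0 < κ * X T := by positivity
  linarith

/-- **the lattice implies few bad gaps** -/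
theorem ZL_GL (hRH : RiemannHypothesis) (hl : l ≤ atTop) {b : ℝ → ℝ} (h : ZL l b) : GapLat l b := by
  classical
  intro δ κ hδ hκ
  have hpi := Real.pi_pos
  set K : ℝ := 8 * Real.pi / κ with hK
  have hK0 : 0 < K := by positivity
  have hXt : Tendsto X atTop atTop := by
    have : X = fun T : ℝ => T * (Real.log T * (1 / (2 * Real.pi))) := by
      funext T
      unfold X
      ring
    rw [this]
    exact tendsto_id.atTop_mul_atTop₀
      (Real.tendsto_log_atTop.atTop_mul_const (by positivity))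
  filter_upwards [h K δ (κ / 2) hK0 hδ (by positivity),
    (hXt.eventually_ge_atTop (4 / κ)).filter_mono hl,
    (eventually_gt_atTop (1 : ℝ)).filter_mono hl] with T h1 h2 hT
  have hL := Real.log_pos hT
  have hX := X_pos hT
  -- the long gaps
  set lg : Finset ℂ := (H343.ZSide.Z0 T).filter fun s => ∃ s', Nxt T s s' ∧
    K < Real.log T * (s'.im - s.im) with hlg
  have hsplit : ∑ s ∈ H343.ZSide.Z0 T, (if BadG (b T) δ T s then (1 : ℝ) else 0) ≤
      (∑ s ∈ H343.ZSide.Z0 T, H343.ZSide.mz s * (if ∃ s' ∈ H343.ZSide.Z0 T,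
        |Real.log T * (s.im - s'.im)| ≤ K ∧ Off (b T) δ T (s.im - s'.im) then 1 else 0)) +
        lg.card := by
    have e1 : ((lg.card : ℕ) : ℝ) = ∑ s ∈ H343.ZSide.Z0 T, (if ∃ s', Nxt T s s' ∧
        K < Real.log T * (s'.im - s.im) then (1 : ℝ) else 0) := by
      rw [Finset.sum_ite, Finset.sum_const_zero, add_zero, Finset.sum_const, nsmul_one]
    rw [e1, ← Finset.sum_add_distrib]
    refine Finset.sum_le_sum fun s hs => ?_
    have hm := one_le_mz hs
    have hm0 := mz_nonneg s
    by_cases hb : BadG (b T) δ T s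
    · rw [if_pos hb]
      obtain ⟨s', hs', hoff⟩ := hb
      by_cases hk : K < Real.log T * (s'.im - s.im)
      · rw [if_pos (⟨s', hs', hk⟩ : ∃ s', Nxt T s s' ∧ K < Real.log T * (s'.im - s.im))]
        have : 0 ≤ H343.ZSide.mz s * (if ∃ s' ∈ H343.ZSide.Z0 T,
          |Real.log T * (s.im - s'.im)| ≤ K ∧ Off (b T) δ T (s.im - s'.im)
            then (1 : ℝ) else 0) := mul_nonneg hm0 (by split_ifs <;> norm_num)
        linarith
      · have h3 : ∃ s' ∈ H343.ZSide.Z0 T,
          |Real.log T * (s.im - s'.im)| ≤ K ∧ Off (b T) δ T (s.im - s'.im) := by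
          refine ⟨s', hs'.1, ?_, ?_⟩
          · rw [← neg_sub, mul_neg, abs_neg, abs_of_pos (mul_pos hL (by linarith [hs'.2.1]))]
            exact not_lt.1 hk
          · have := off_symm hoff
            rwa [neg_sub] at this
        rw [if_pos h3, mul_one]
        have : (0 : ℝ) ≤ (if ∃ s', Nxt T s s' ∧ K < Real.log T * (s'.im - s.im)
          then (1 : ℝ) else 0) := by split_ifs <;> norm_num
        linarith
    · rw [if_neg hb]
      refine add_nonneg (mul_nonneg hm0 ?_) ?_ <;> split_ifs <;> norm_num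
  -- count the long gaps
  have hcount : (lg.card : ℝ) ≤ Real.log T * T / K + 1 := by
    set n : ℕ := ⌊Real.log T * T / K⌋₊ + 1 with hn
    have h3 : lg.card ≤ (Finset.range n).card := by
      refine Finset.card_le_card_of_injOn (fun s => ⌊Real.log T * s.im / K⌋₊) ?_ ?_
      · intro s hs
        have hs' : s ∈ lg := hs
        rw [hlg, Finset.mem_filter] at hs'
        obtain ⟨h4, h5⟩ := mem_Z hs'.1
        rw [Finset.mem_coe, Finset.mem_range, hn, Nat.lt_succ_iff]
        refine Nat.floor_le_floor ?_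
        gcongr
      · intro s hs t ht hst
        have hs' : s ∈ lg := hs
        have ht' : t ∈ lg := ht
        rw [hlg, Finset.mem_filter] at hs' ht'
        obtain ⟨hs1, s₁, hs2, hs3⟩ := hs'
        obtain ⟨ht1, t₁, ht2, ht3⟩ := ht'
        obtain ⟨p1, p2⟩ := mem_Z hs1
        obtain ⟨p3, p4⟩ := mem_Z ht1
        have key : ∀ p r p₁ : ℂ, 0 < p.im → 0 < r.im → r ∈ H343.ZSide.Z0 T → Nxt T p p₁ →
            K < Real.log T * (p₁.im - p.im) → p.im < r.im →
            ⌊Real.log T * p.im / K⌋₊ ≠ ⌊Real.log T * r.im / K⌋₊ := by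
          intro p r p₁ hp hr hrm hpn hpk hpr heq
          have q1 := hpn.2.2 r hrm hpr
          have q2 := Nat.floor_le (a := Real.log T * p.im / K) (by positivity)
          have q3 := Nat.lt_floor_add_one (Real.log T * r.im / K)
          rw [← heq] at q3
          have q4 : Real.log T * r.im / K < Real.log T * p.im / K + 1 := by linarith
          rw [div_add_one hK0.ne', div_lt_div_iff_of_pos_right hK0] at q4
          have q5 : Real.log T * p₁.im ≤ Real.log T * r.im := by gcongr
          nlinarith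
        have him : s.im = t.im := by
          rcases lt_trichotomy s.im t.im with h4 | h4 | h4
          · exact absurd hst (key s t s₁ p1 p3 ht1 hs2 hs3 h4)
          · exact h4
          · exact absurd hst.symm (key t s t₁ p3 p1 hs1 ht2 ht3 h4)
        exact same_im hRH hs1 ht1 him
    rw [Finset.card_range] at h3
    have h4 : (lg.card : ℝ) ≤ n := by exact_mod_cast h3
    refine h4.trans ?_
    rw [hn]
    push_cast
    have := Nat.floor_le (a := Real.log T * T / K) (by positivity)
    linarith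
  have h5 : Real.log T * T / K = κ / 4 * X T := by
    rw [hK]
    unfold X
    field_simp
    norm_num
  have h6 : 1 ≤ κ / 4 * X T := by
    rw [div_le_iff₀ hκ] at h2
    linarith
  linarith

end Pool.Agent.Helper69.AH
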