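import Pool.Agent.Helper69.AH.Per

/-! The group of the points of mass one; the form of `F` under mass one at `2`. -/

open Filter Topology Complex MeasureTheory

namespace Pool.Agent.Helper69.AH

open H332B Pool.Agent.Helper84.OS Pool.Agent.Helper69.PC

variable {l : Filter ℝ}

lemma q_add (b b' T x : ℝ) : q (b + b') T x ≤ 2 * q b T x + 2 * q b' T x := by
  unfold q
  set u := b * (Real.log T * x) with hu
  set v := b' * (Real.log T * x) with hv
  rw [show (b + b') * (Real.log T * x) = u + v by rw [hu, hv]; ring, Real.cos_add]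
  nlinarith [sq_nonneg (Real.cos u + Real.cos v - 2), sq_nonneg (Real.sin u - Real.sin v),
    Real.sin_sq_add_cos_sq u, Real.sin_sq_add_cos_sq v]

lemma q_negb (b T x : ℝ) : q (-b) T x = q b T x := by
  unfold q
  rw [neg_mul, Real.cos_neg]

lemma Dq_add {b b' : ℝ} (h : Dq l (fun _ => b)) (h' : Dq l (fun _ => b')) :
    Dq l (fun _ => b + b') := by
  intro K hK κ hκ
  filter_upwards [h K hK (κ / 4) (by positivity), h' K hK (κ / 4) (by positivity)] with T h1 h2
  have h3 : K2 T (fun x => ind T K x * q (b + b') T x) ≤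
      K2 T (fun x => 2 * (ind T K x * q b T x) + 2 * (ind T K x * q b' T x)) := by
    refine K2_mono fun x => ?_
    have := mul_le_mul_of_nonneg_left (q_add b b' T x) (ind_nonneg T K x)
    linarith
  rw [K2_add, K2_smul, K2_smul] at h3
  refine h3.trans ?_
  linarith

lemma Dq_neg {b : ℝ} (h : Dq l (fun _ => b)) : Dq l (fun _ => -b) := by
  intro K hK κ hκ
  simp_rw [q_negb]
  exact h K hK κ hκ

lemma Dq_zero (hl : l ≤ atTop) : Dq l (fun _ => 0) := by
  intro K hK κ hκ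
  filter_upwards [(eventually_gt_atTop (1 : ℝ)).filter_mono hl] with T hT
  have hX := X_pos hT
  have h1 : K2 T (fun x => ind T K x * q 0 T x) = 0 := by
    have h2 : (fun x => ind T K x * q 0 T x) = fun _ => 0 := by
      funext x
      unfold q
      rw [zero_mul, Real.cos_zero, sub_self, mul_zero]
    rw [h2, K2_zero]
  rw [h1]
  positivity

lemma M1_iff (hRH : RiemannHypothesis) (hl : l ≤ atTop) (b : ℝ → ℝ) : M1 l b ↔ Dq l b :=
  ⟨M1_Dq hRH hl, Dq_M1 hRH hl⟩

/-- **the points of mass one form a discrete group** -/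
theorem group (hRH : RiemannHypothesis) (hl : l ≤ atTop) [l.NeBot] :
    ∃ β : ℝ, (β = 0 ∨ 2 ≤ β) ∧ ∀ b : ℝ, M1 l (fun _ => b) ↔ ∃ n : ℤ, b = n * β := by
  let H : AddSubgroup ℝ :=
    { carrier := {b | Dq l (fun _ => b)}
      zero_mem' := Dq_zero hl
      add_mem' := fun h h' => Dq_add h h'
      neg_mem' := fun h => Dq_neg h }
  have hmem : ∀ b, b ∈ H ↔ Dq l (fun _ => b) := fun b => Iff.rfl
  have hgap : ∀ b : ℝ, 0 < b → b < 2 → b ∉ H := by
    intro b h0 h2 hb
    exact no_per hRH hl h0 h2 (Dq_Per hRH hl ((hmem b).1 hb))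
  have hd : Disjoint (H : Set ℝ) (Set.Ioo 0 2) := by
    rw [Set.disjoint_left]
    intro b hb hb'
    exact hgap b hb'.1 hb'.2 hb
  obtain ⟨β, hβ⟩ := AddSubgroup.cyclic_of_isolated_zero (by norm_num : (0 : ℝ) < 2) hd
  have hβmem : β ∈ H := by
    rw [hβ]
    exact AddSubgroup.subset_closure rfl
  refine ⟨|β|, ?_, fun b => ?_⟩
  · by_cases h0 : β = 0
    · left
      rw [h0, abs_zero]
    · right
      by_contra hc
      push Not at hc
      have h1 : |β| ∈ H := by
        rcases abs_choice β with h | h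
        · rw [h]
          exact hβmem
        · rw [h]
          exact H.neg_mem hβmem
      exact hgap |β| (abs_pos.2 h0) hc h1
  · rw [M1_iff hRH hl, ← hmem, hβ, AddSubgroup.mem_closure_singleton]
    constructor
    · rintro ⟨n, hn⟩
      rw [zsmul_eq_mul] at hn
      rcases abs_choice β with h | h
      · exact ⟨n, by rw [h, hn]⟩
      · exact ⟨-n, by rw [h, ← hn]; push_cast; ring⟩
    · rintro ⟨n, hn⟩
      rcases abs_choice β with h | h
      · exact ⟨n, by rw [zsmul_eq_mul, hn, h]⟩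
      · exact ⟨-n, by rw [zsmul_eq_mul, hn, h]; push_cast; ring⟩

/-- the masses around a period -/
theorem per_mass (hRH : RiemannHypothesis) (hl : l ≤ atTop) {b : ℝ} (h : Per l (fun _ => b))
    {c d : ℝ} (hc0 : 0 < c) (hc1 : c < 1) (hd0 : 0 < d) (hd1 : d < 1) :
    Tendsto (fun T => cum T (b + d) - cum T (b - c)) l (𝓝 (1 + (c ^ 2 + d ^ 2) / 2)) := by
  rw [Metric.tendsto_nhds]
  intro ε hε
  set τ : ℝ := min (min (min (c / 2) (d / 2)) (min ((1 - c) / 2) ((1 - d) / 2))) (ε / 8) with hτ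
  have hτ0 : 0 < τ := by
    refine lt_min (lt_min (lt_min ?_ ?_) (lt_min ?_ ?_)) ?_ <;> linarith
  have t1 : τ ≤ c / 2 := ((min_le_left _ _).trans (min_le_left _ _)).trans (min_le_left _ _)
  have t2 : τ ≤ d / 2 := ((min_le_left _ _).trans (min_le_left _ _)).trans (min_le_right _ _)
  have t3 : τ ≤ (1 - c) / 2 := ((min_le_left _ _).trans (min_le_right _ _)).trans (min_le_left _ _)
  have t4 : τ ≤ (1 - d) / 2 := ((min_le_left _ _).trans (min_le_right _ _)).trans (min_le_right _ _)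
  have t5 : τ ≤ ε / 8 := min_le_right _ _
  set x₀ : ℝ := (d - c) / 2 with hx₀
  set a₀ : ℝ := (c + d) / 2 with ha₀
  have L : ∀ e : ℝ, 0 < e → e < 1 → ∀ᶠ T in l, |cum T e - (1 / 2 + e ^ 2 / 2)| < ε / 8 := by
    intro e he0 he1
    exact (Metric.tendsto_nhds.1 ((cum_lim hRH he0 he1).mono_left hl)) (ε / 8) (by positivity)
  have u1 := h (fun x => cut a₀ (a₀ + τ) (x - x₀)) (bump_cd x₀)
    (bump_cs (by positivity) (by linarith) x₀)
  have u2 := h (fun x => cut (a₀ - τ) a₀ (x - x₀)) (bump_cd x₀)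
    (bump_cs (by rw [ha₀]; linarith) (by linarith) x₀)
  have v1 := (Metric.tendsto_nhds.1 u1) (ε / 8) (by positivity)
  have v2 := (Metric.tendsto_nhds.1 u2) (ε / 8) (by positivity)
  filter_upwards [v1, v2, L (c + τ) (by linarith) (by linarith),
    L (d + τ) (by linarith) (by linarith), L (c - τ) (by linarith) (by linarith),
    L (d - τ) (by linarith) (by linarith),
    (eventually_gt_atTop (1 : ℝ)).filter_mono hl] with T v1 v2 w1 w2 w3 w4 hT
  have hX := X_pos hT
  rw [Real.dist_eq, abs_lt] at v1 v2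
  rw [abs_lt] at w1 w2 w3 w4
  rw [sub_zero, lt_div_iff₀ hX, div_lt_iff₀ hX] at v1 v2
  obtain ⟨p1, -⟩ := bump_int hRH hT (a₀ := a₀) (b₀ := a₀ + τ) (by positivity) (by linarith) x₀ b
  obtain ⟨-, p2⟩ := bump_int hRH hT (a₀ := a₀) (b₀ := a₀ + τ) (by positivity) (by linarith) x₀ 0
  obtain ⟨-, p3⟩ := bump_int hRH hT (a₀ := a₀ - τ) (b₀ := a₀) (by rw [ha₀]; linarith)
    (by linarith) x₀ b
  obtain ⟨p4, -⟩ := bump_int hRH hT (a₀ := a₀ - τ) (b₀ := a₀) (by rw [ha₀]; linarith)
    (by linarith) x₀ 0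
  simp only [add_zero] at p2 p4
  rw [show x₀ + (a₀ + τ) = d + τ by rw [hx₀, ha₀]; ring,
    show x₀ - (a₀ + τ) = -(c + τ) by rw [hx₀, ha₀]; ring, cum_neg hRH] at p2
  rw [show x₀ + (a₀ - τ) = d - τ by rw [hx₀, ha₀]; ring,
    show x₀ - (a₀ - τ) = -(c - τ) by rw [hx₀, ha₀]; ring, cum_neg hRH] at p4
  rw [show x₀ + b + a₀ = b + d by rw [hx₀, ha₀]; ring,
    show x₀ + b - a₀ = b - c by rw [hx₀, ha₀]; ring] at p1 p3
  have hup0 := p1.trans ((sub_lt_iff_lt_add'.1 v1.2).le.trans (add_le_add p2 le_rfl))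
  have hlo0 := (add_le_add p4 le_rfl).trans ((lt_sub_iff_add_lt'.1 v2.1).le.trans p3)
  clear v1 v2 p1 p2 p3 p4 u1 u2
  have hup : X T * (cum T (b + d) - cum T (b - c)) ≤
      X T * (cum T (d + τ) - -cum T (c + τ) + ε / 8) := by linarith
  have hlo : X T * (cum T (d - τ) - -cum T (c - τ) - ε / 8) ≤
      X T * (cum T (b + d) - cum T (b - c)) := by linarith
  have h1 := le_of_mul_le_mul_left hup hX
  have h2 := le_of_mul_le_mul_left hlo hX
  have sq1 : ∀ e : ℝ, e < 1 → e ^ 2 - 2 * τ ≤ (e - τ) ^ 2 := by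
    intro e he
    have : τ * e ≤ τ * 1 := mul_le_mul_of_nonneg_left he.le hτ0.le
    nlinarith [sq_nonneg τ]
  have sq2 : ∀ e : ℝ, e < 1 → (e + τ) ^ 2 ≤ e ^ 2 + 3 * τ := by
    intro e he
    have h3 : τ * e ≤ τ * 1 := mul_le_mul_of_nonneg_left he.le hτ0.le
    have h4 : τ * τ ≤ τ * 1 := mul_le_mul_of_nonneg_left (by linarith) hτ0.le
    nlinarith
  have s1 := sq1 c hc1
  have s2 := sq1 d hd1
  have s3 := sq2 c hc1
  have s4 := sq2 d hd1
  rw [Real.dist_eq, abs_lt]
  constructor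
  · linarith [w3.1, w4.1]
  · linarith [w1.2, w2.2]

/-- the form of `F` under the alternative hypothesis -/
def AHF (l : Filter ℝ) : Prop := ∀ k : ℤ, ∀ c d : ℝ, 0 < c → c < 1 → 0 < d → d < 1 →
  Tendsto (fun T => cum T (2 * k + d) - cum T (2 * k - c)) l (𝓝 (1 + (c ^ 2 + d ^ 2) / 2))

theorem two_iff (hRH : RiemannHypothesis) (hl : l ≤ atTop) : M1 l (fun _ => 2) ↔ AHF l := by
  constructor
  · intro h k c d hc0 hc1 hd0 hd1
    have h1 := M1_Dq hRH hl h
    have h2 : Dq l (fun _ => (2 * k : ℝ)) := by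
      let H : AddSubgroup ℝ :=
        { carrier := {b | Dq l (fun _ => b)}
          zero_mem' := Dq_zero hl
          add_mem' := fun h h' => Dq_add h h'
          neg_mem' := fun h => Dq_neg h }
      have h3 : (2 : ℝ) ∈ H := h1
      have h4 := H.zsmul_mem h3 k
      rw [zsmul_eq_mul, mul_comm] at h4
      exact h4
    exact per_mass hRH hl (Dq_Per hRH hl h2) hc0 hc1 hd0 hd1
  · intro h ε hε c hc
    set ρ : ℝ := min ε (1 / 2) with hρ
    have hρ0 : 0 < ρ := lt_min hε (by norm_num)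
    have hρ1 : ρ ≤ 1 / 2 := min_le_right _ _
    have hρε : ρ ≤ ε := min_le_left _ _
    have h1 := h 1 ρ ρ hρ0 (by linarith) hρ0 (by linarith)
    have h2 := (Metric.tendsto_nhds.1 h1) (1 - c) (by linarith)
    filter_upwards [h2, (eventually_gt_atTop (1 : ℝ)).filter_mono hl] with T h2 hT
    rw [Real.dist_eq, abs_lt] at h2
    have h3 : (2 * ((1 : ℤ) : ℝ)) = 2 := by norm_num
    rw [h3] at h2
    have e1 := cum_mono hRH hT (a := 2 + ρ) (b := 2 + ε) (by linarith)
    have e2 := cum_mono hRH hT (a := 2 - ε) (b := 2 - ρ) (by linarith)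
    show c ≤ cum T (2 + ε) - cum T (2 - ε)
    nlinarith [h2.1, sq_nonneg ρ]

end Pool.Agent.Helper69.AH
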