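import Pool.Agent.Helper69.PC.Mean

/-! The Poisson kernel: Riemann sums and positivity. -/

open Filter Topology Complex MeasureTheory

namespace Pool.Agent.Helper69.AH

open H332B Pool.Agent.Helper84.OS Pool.Agent.Helper69.PC

lemma ph_pos {r : ℝ} (hr : 0 < r) (v : ℝ) : 0 < ph r v := by
  unfold ph
  positivity

lemma ph_neg (r v : ℝ) : ph r (-v) = ph r v := by
  unfold ph
  rw [neg_sq]

lemma ph_le {r : ℝ} (hr : 0 < r) (v : ℝ) : ph r v ≤ 1 / r := by
  unfold ph
  rw [div_le_div_iff₀ (by positivity) hr]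
  nlinarith [sq_nonneg v]

/-- the kernel is at least `1 / (2 r)` on `[-r, r]` -/
lemma ph_ge {r v : ℝ} (hr : 0 < r) (hv : |v| ≤ r) : 1 / (2 * r) ≤ ph r v := by
  unfold ph
  rw [div_le_div_iff₀ (by positivity) (by positivity)]
  have : v ^ 2 ≤ r ^ 2 := by
    rw [← sq_abs]
    exact pow_le_pow_left₀ (abs_nonneg _) hv 2
  nlinarith

lemma ph_ge' {r v : ℝ} (hr : 0 < r) (hv : |v| ≤ 2 * r) : 1 / (5 * r) ≤ ph r v := by
  unfold ph
  rw [div_le_div_iff₀ (by positivity) (by positivity)]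
  have : v ^ 2 ≤ (2 * r) ^ 2 := by
    rw [← sq_abs]
    exact pow_le_pow_left₀ (abs_nonneg _) hv 2
  nlinarith

lemma harnack {r h v d : ℝ} (hr : 0 < r) (hh : 0 ≤ h) (hd : |d| ≤ h) :
    ph r v ≤ (1 + h / r) ^ 2 * ph r (v + d) := by
  unfold ph
  rw [← mul_div_assoc, div_le_div_iff₀ (by positivity) (by positivity)]
  have h1 : (v + d) ^ 2 ≤ v ^ 2 + 2 * |v| * h + h ^ 2 := by
    have e1 : v * d ≤ |v| * h := by
      calc v * d ≤ |v * d| := le_abs_self _
        _ = |v| * |d| := abs_mul _ _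
        _ ≤ |v| * h := by gcongr
    have e2 : d ^ 2 ≤ h ^ 2 := by
      rw [← sq_abs d]
      exact pow_le_pow_left₀ (abs_nonneg _) hd 2
    nlinarith
  have h2 : 2 * |v| * r ≤ r ^ 2 + v ^ 2 := by
    rw [← sq_abs v]
    nlinarith [sq_nonneg (|v| - r)]
  have h3 : (1 + h / r) ^ 2 * r ^ 2 = (r + h) ^ 2 := by
    field_simp
  have h4 : r ^ 2 * (r ^ 2 + (v + d) ^ 2) ≤ (r + h) ^ 2 * (r ^ 2 + v ^ 2) := by
    nlinarith [mul_nonneg hr.le hh, sq_nonneg h, mul_nonneg (mul_nonneg hr.le hh)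
      (abs_nonneg v), sq_nonneg v, mul_nonneg hh (sub_nonneg.2 h2),
      mul_nonneg (mul_nonneg hr.le hh) (sub_nonneg.2 h2),
      mul_le_mul_of_nonneg_left h1 (sq_nonneg r), mul_nonneg (sq_nonneg h) (sq_nonneg v)]
  have h5 : r * (r ^ 2 + (v + d) ^ 2) * r = r ^ 2 * (r ^ 2 + (v + d) ^ 2) := by ring
  have h6 : (1 + h / r) ^ 2 * r * (r ^ 2 + v ^ 2) * r = (r + h) ^ 2 * (r ^ 2 + v ^ 2) := by
    rw [← h3]
    ring
  refine le_of_mul_le_mul_right ?_ hr
  rw [h5, h6]
  exact h4

lemma atan_deriv {r : ℝ} (hr : 0 < r) (v : ℝ) :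
    HasDerivAt (fun v : ℝ => Real.arctan (v / r)) (ph r v) v := by
  have := (Real.hasDerivAt_arctan (v / r)).comp v ((hasDerivAt_id v).div_const r)
  refine this.congr_deriv ?_
  unfold ph
  field_simp

/-- one cell of the Riemann sum -/
lemma cell_bounds {r h : ℝ} (hr : 0 < r) (hh : 0 < h) (y : ℝ) :
    Real.arctan (y / r) - Real.arctan ((y - h) / r) ≤ (1 + h / r) ^ 2 * (h * ph r y) ∧
    h * ph r y ≤ (1 + h / r) ^ 2 * (Real.arctan (y / r) - Real.arctan ((y - h) / r)) := by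
  obtain ⟨c, hc, hc'⟩ := exists_hasDerivAt_eq_slope (fun v : ℝ => Real.arctan (v / r))
    (fun v => ph r v) (by linarith : y - h < y)
    (by
      intro v _
      exact (atan_deriv hr v).continuousAt.continuousWithinAt)
    (fun v _ => atan_deriv hr v)
  have h1 : Real.arctan (y / r) - Real.arctan ((y - h) / r) = h * ph r c := by
    rw [hc', show y - (y - h) = h by ring, mul_div_cancel₀ _ hh.ne']
  rw [h1]
  constructor
  · have h2 := harnack (r := r) (h := h) (v := c) (d := y - c) hr hh.le (by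
      rw [abs_of_nonneg (by linarith [hc.2])]
      linarith [hc.1])
    rw [show c + (y - c) = y by ring] at h2
    nlinarith
  · have h2 := harnack (r := r) (h := h) (v := y) (d := c - y) hr hh.le (by
      rw [abs_of_nonpos (by linarith [hc.2])]
      linarith [hc.1])
    rw [show y + (c - y) = c by ring] at h2
    nlinarith

/-- the Riemann sum -/
lemma riem {r h : ℝ} (hr : 0 < r) (hh : 0 < h) (v a : ℝ) (n : ℕ) :
    Real.arctan ((v - a) / r) - Real.arctan ((v - a - n * h) / r) ≤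
      (1 + h / r) ^ 2 * ∑ j ∈ Finset.range n, h * ph r (v - (a + j * h)) ∧
    ∑ j ∈ Finset.range n, h * ph r (v - (a + j * h)) ≤
      (1 + h / r) ^ 2 * (Real.arctan ((v - a) / r) - Real.arctan ((v - a - n * h) / r)) := by
  induction n with
  | zero => simp
  | succ n ih =>
    obtain ⟨h1, h2⟩ := ih
    obtain ⟨h3, h4⟩ := cell_bounds hr hh (v - (a + n * h))
    rw [Finset.sum_range_succ]
    rw [show v - (a + n * h) - h = v - a - (n + 1) * h by ring] at h3 h4
    rw [show v - (a + n * h) = v - a - n * h by ring] at h3 h4 ⊢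
    push_cast
    constructor
    · rw [mul_add]
      linarith
    · linarith

lemma atan_ge {x : ℝ} (hx : 0 < x) : Real.pi / 2 - 1 / x ≤ Real.arctan x := by
  have h1 := Real.arctan_inv_of_pos hx
  have h2 : Real.arctan x⁻¹ ≤ x⁻¹ := by
    have h3 : 0 ≤ x⁻¹ := by positivity
    have h4 := Real.le_tan (Real.arctan_nonneg.2 h3) (Real.arctan_lt_pi_div_two _)
    rwa [Real.tan_arctan] at h4
  rw [one_div]
  linarith

/-- positivity of the kernel -/
lemma psd {ι : Type*} (S : Finset ι) (c v : ι → ℝ) {r : ℝ} (hr : 0 < r) :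
    0 ≤ ∑ i ∈ S, ∑ j ∈ S, c i * c j * ph r (v i - v j) := by
  have h1 : ∑ i ∈ S, ∑ j ∈ S, c i * c j * ph r (v i - v j) =
      ∫ α in Set.Ioi (0 : ℝ), ∑ i ∈ S, ∑ j ∈ S, c i * c j *
        (Real.exp (-r * α) * Real.cos (α * (v i - v j))) := by
    rw [MeasureTheory.integral_finsetSum]
    · refine Finset.sum_congr rfl fun i _ => ?_
      rw [MeasureTheory.integral_finsetSum]
      · refine Finset.sum_congr rfl fun j _ => ?_
        rw [MeasureTheory.integral_const_mul, lap_cos hr]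
      · intro j _
        exact (lap_int hr _).const_mul _
    · intro i _
      refine MeasureTheory.integrable_finsetSum _ fun j _ => ?_
      exact (lap_int hr _).const_mul _
  rw [h1]
  refine MeasureTheory.setIntegral_nonneg measurableSet_Ioi fun α _ => ?_
  have h2 : ∑ i ∈ S, ∑ j ∈ S, c i * c j *
        (Real.exp (-r * α) * Real.cos (α * (v i - v j))) =
      Real.exp (-r * α) * ((∑ i ∈ S, c i * Real.cos (α * v i)) ^ 2 +
        (∑ i ∈ S, c i * Real.sin (α * v i)) ^ 2) := by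
    rw [sq, sq, Finset.sum_mul_sum, Finset.sum_mul_sum, ← Finset.sum_add_distrib, Finset.mul_sum]
    refine Finset.sum_congr rfl fun i _ => ?_
    rw [← Finset.sum_add_distrib, Finset.mul_sum]
    refine Finset.sum_congr rfl fun j _ => ?_
    rw [mul_sub, Real.cos_sub]
    ring
  rw [h2]
  positivity

/-- positivity of the kernel, for two families -/
lemma psd2 {ι κ : Type*} (S : Finset ι) (c v : ι → ℝ) (R : Finset κ) (d y : κ → ℝ) {r : ℝ}
    (hr : 0 < r) : 2 * ∑ i ∈ S, ∑ j ∈ R, c i * d j * ph r (v i - y j) ≤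
      (∑ i ∈ S, ∑ j ∈ S, c i * c j * ph r (v i - v j)) +
        ∑ i ∈ R, ∑ j ∈ R, d i * d j * ph r (y i - y j) := by
  classical
  have h := psd (S.disjSum R) (Sum.elim c fun j => -d j) (Sum.elim v y) hr
  rw [Finset.sum_disjSum] at h
  simp only [Finset.sum_disjSum, Sum.elim_inl, Sum.elim_inr] at h
  rw [Finset.sum_add_distrib, Finset.sum_add_distrib] at h
  have h1 : ∑ x ∈ R, ∑ i ∈ S, -d x * c i * ph r (y x - v i) =
      -∑ i ∈ S, ∑ j ∈ R, c i * d j * ph r (v i - y j) := by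
    rw [Finset.sum_comm, ← Finset.sum_neg_distrib]
    refine Finset.sum_congr rfl fun i _ => ?_
    rw [← Finset.sum_neg_distrib]
    refine Finset.sum_congr rfl fun j _ => ?_
    rw [← ph_neg r (y j - v i), neg_sub]
    ring
  have h2 : ∑ x ∈ S, ∑ j ∈ R, c x * -d j * ph r (v x - y j) =
      -∑ i ∈ S, ∑ j ∈ R, c i * d j * ph r (v i - y j) := by
    rw [← Finset.sum_neg_distrib]
    refine Finset.sum_congr rfl fun i _ => ?_
    rw [← Finset.sum_neg_distrib]
    refine Finset.sum_congr rfl fun j _ => ?_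
    ring
  have h3 : ∑ x ∈ R, ∑ j ∈ R, -d x * -d j * ph r (y x - y j) =
      ∑ i ∈ R, ∑ j ∈ R, d i * d j * ph r (y i - y j) := by
    refine Finset.sum_congr rfl fun i _ => Finset.sum_congr rfl fun j _ => ?_
    ring
  rw [h1, h2, h3] at h
  linarith

end Pool.Agent.Helper69.AH
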