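import Pool.Agent.Helper69.AH.Up

/-! The lower bound for the pair sums of subsets of the zeros; clusters of zeros. -/

open Filter Topology Complex MeasureTheory

namespace Pool.Agent.Helper69.AH

open H332B Pool.Agent.Helper84.OS Pool.Agent.Helper69.PC

lemma mem_Z {T : ℝ} {s : ℂ} (hs : s ∈ H343.ZSide.Z0 T) : 0 < s.im ∧ s.im ≤ T := by
  unfold H343.ZSide.Z0 at hs
  rw [Set.Finite.mem_toFinset] at hs
  obtain ⟨h1, h2, h3, h4, h5⟩ := hs
  exact ⟨h3, h4⟩

/-- the lattice of Lebesgue measure is almost balanced at each zero -/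
lemma cross {r : ℝ} (hr : 1 ≤ r) {V v : ℝ} (hv0 : 0 ≤ v) (hvV : v ≤ V) {n : ℕ}
    (hn : V + 2 * r ^ 3 ≤ n * (1 / r)) :
    Real.pi * (1 - 3 / r ^ 2) ≤ ∑ j ∈ Finset.range n, 1 / r * ph r (v - (-r ^ 3 + j * (1 / r))) := by
  have hrp : 0 < r := by linarith
  have h1 := (riem hrp (h := 1 / r) (by positivity) v (-r ^ 3) n).1
  have hpi := Real.pi_gt_three
  have h2 : Real.pi / 2 - 1 / r ^ 2 ≤ Real.arctan ((v - -r ^ 3) / r) := by
    have e1 : r ^ 2 ≤ (v - -r ^ 3) / r := by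
      rw [le_div_iff₀ hrp]
      nlinarith
    have e2 := atan_ge (x := r ^ 2) (by positivity)
    have e3 := Real.arctan_le_arctan_iff.2 e1
    linarith
  have h3 : Real.arctan ((v - -r ^ 3 - n * (1 / r)) / r) ≤ -(Real.pi / 2 - 1 / r ^ 2) := by
    have e1 : (v - -r ^ 3 - n * (1 / r)) / r ≤ -r ^ 2 := by
      rw [div_le_iff₀ hrp]
      nlinarith
    have e2 := atan_ge (x := r ^ 2) (by positivity)
    have e3 := Real.arctan_le_arctan_iff.2 e1
    rw [Real.arctan_neg] at e3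
    linarith
  set S := ∑ j ∈ Finset.range n, 1 / r * ph r (v - (-r ^ 3 + j * (1 / r))) with hS
  have h4 : Real.pi - 2 / r ^ 2 ≤ (1 + 1 / r / r) ^ 2 * S := by
    have : 2 / r ^ 2 = 1 / r ^ 2 + 1 / r ^ 2 := by ring
    linarith
  set u := 1 / r ^ 2 with hu
  have hu0 : 0 < u := by positivity
  have hu1 : u ≤ 1 := by
    rw [hu, div_le_one (by positivity)]
    nlinarith
  have h5 : 1 / r / r = u := by
    rw [hu]
    field_simp
  have h6 : 2 / r ^ 2 = 2 * u := by
    rw [hu]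
    ring
  have h7 : 3 / r ^ 2 = 3 * u := by
    rw [hu]
    ring
  rw [h5, h6] at h4
  rw [h7]
  -- `π (1 - 3u) (1 + u)² ≤ π - 2u`
  have h8 : Real.pi * (1 - 3 * u) * (1 + u) ^ 2 ≤ Real.pi - 2 * u := by
    nlinarith [mul_pos hu0 hu0, mul_pos (mul_pos hu0 hu0) hu0, mul_nonneg hu0.le
      (sub_nonneg.2 hu1), mul_pos (by linarith : 0 < Real.pi) hu0,
      mul_pos (mul_pos (by linarith : 0 < Real.pi) hu0) hu0,
      mul_pos (mul_pos (mul_pos (by linarith : 0 < Real.pi) hu0) hu0) hu0,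
      mul_pos (by linarith : 0 < Real.pi - 3) hu0]
  have h9 : 0 < (1 + u) ^ 2 := by positivity
  nlinarith

/-- the energy of the lattice -/
lemma lat_energy {r : ℝ} (hr : 1 ≤ r) (n : ℕ) :
    ∑ i ∈ Finset.range n, ∑ j ∈ Finset.range n, (1 / r / (2 * Real.pi)) * (1 / r / (2 * Real.pi)) *
      ph r ((-r ^ 3 + i * (1 / r)) - (-r ^ 3 + j * (1 / r))) ≤
        (1 + 3 / r ^ 2) * (n * (1 / r)) / (4 * Real.pi) := by
  have hrp : 0 < r := by linarith
  have hpi := Real.pi_pos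
  set u := 1 / r ^ 2 with hu
  have hu0 : 0 < u := by positivity
  have hu1 : u ≤ 1 := by
    rw [hu, div_le_one (by positivity)]
    nlinarith
  have h1 : ∀ i ∈ Finset.range n, ∑ j ∈ Finset.range n,
      (1 / r / (2 * Real.pi)) * (1 / r / (2 * Real.pi)) *
      ph r ((-r ^ 3 + i * (1 / r)) - (-r ^ 3 + j * (1 / r))) ≤
        (1 + 3 / r ^ 2) * (1 / r) / (4 * Real.pi) := by
    intro i _
    have h2 := (riem hrp (h := 1 / r) (by positivity) (-r ^ 3 + i * (1 / r)) (-r ^ 3) n).2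
    have h3 : ∑ j ∈ Finset.range n, (1 / r / (2 * Real.pi)) * (1 / r / (2 * Real.pi)) *
        ph r ((-r ^ 3 + i * (1 / r)) - (-r ^ 3 + j * (1 / r))) =
        1 / r / (4 * Real.pi ^ 2) * ∑ j ∈ Finset.range n, 1 / r *
          ph r ((-r ^ 3 + i * (1 / r)) - (-r ^ 3 + j * (1 / r))) := by
      rw [Finset.mul_sum]
      refine Finset.sum_congr rfl fun j _ => ?_
      field_simp
      ring
    rw [h3]
    have h4 : Real.arctan ((-r ^ 3 + i * (1 / r) - -r ^ 3) / r) -
        Real.arctan ((-r ^ 3 + i * (1 / r) - -r ^ 3 - n * (1 / r)) / r) ≤ Real.pi := by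
      have := Real.arctan_lt_pi_div_two ((-r ^ 3 + i * (1 / r) - -r ^ 3) / r)
      have := Real.neg_pi_div_two_lt_arctan ((-r ^ 3 + i * (1 / r) - -r ^ 3 - n * (1 / r)) / r)
      linarith
    have h5 : (1 + 1 / r / r) ^ 2 ≤ 1 + 3 / r ^ 2 := by
      have e1 : 1 / r / r = u := by
        rw [hu]
        field_simp
      have e2 : 3 / r ^ 2 = 3 * u := by
        rw [hu]
        ring
      rw [e1, e2]
      nlinarith
    have h6 : ∑ j ∈ Finset.range n, 1 / r *
          ph r ((-r ^ 3 + i * (1 / r)) - (-r ^ 3 + j * (1 / r))) ≤ (1 + 3 / r ^ 2) * Real.pi := by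
      refine h2.trans ?_
      have h7 : (1 + 1 / r / r) ^ 2 * (Real.arctan ((-r ^ 3 + i * (1 / r) - -r ^ 3) / r) -
        Real.arctan ((-r ^ 3 + i * (1 / r) - -r ^ 3 - n * (1 / r)) / r)) ≤
          (1 + 1 / r / r) ^ 2 * Real.pi := by gcongr
      refine h7.trans ?_
      gcongr
    calc 1 / r / (4 * Real.pi ^ 2) * ∑ j ∈ Finset.range n, 1 / r *
          ph r ((-r ^ 3 + i * (1 / r)) - (-r ^ 3 + j * (1 / r))) ≤
        1 / r / (4 * Real.pi ^ 2) * ((1 + 3 / r ^ 2) * Real.pi) := by gcongr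
      _ = _ := by
        field_simp
  refine (Finset.sum_le_sum h1).trans (le_of_eq ?_)
  rw [Finset.sum_const, Finset.card_range, nsmul_eq_mul]
  ring

/-- **the lower bound for the pair sum of any part of the zeros** -/
theorem part_low {r : ℝ} (hr : 1 ≤ r) : ∀ᶠ T in atTop, ∀ g : ℂ → ℝ,
    (∀ s, 0 ≤ g s ∧ g s ≤ 1) →
    (∑ s ∈ H343.ZSide.Z0 T, H343.ZSide.mz s * g s) - (1 / 2 + 8 / r ^ 2) * X T ≤
      ∑ s ∈ H343.ZSide.Z0 T, ∑ s' ∈ H343.ZSide.Z0 T,
        (H343.ZSide.mz s * g s) * (H343.ZSide.mz s' * g s') *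
          ph r (Real.log T * s.im - Real.log T * s'.im) := by
  have hrp : 0 < r := by linarith
  have hpi := Real.pi_pos
  have hpi3 := Real.pi_gt_three
  have h1 : ∀ᶠ T : ℝ in atTop, 40 * r ^ 6 ≤ X T := by
    have h2 : Tendsto X atTop atTop := by
      have : X = fun T : ℝ => T * (Real.log T * (1 / (2 * Real.pi))) := by
        funext T
        unfold X
        ring
      rw [this]
      exact tendsto_id.atTop_mul_atTop₀
        (Real.tendsto_log_atTop.atTop_mul_const (by positivity))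
    exact h2.eventually_ge_atTop _
  filter_upwards [h1, NZ_asymp (ε := 1) one_pos, eventually_gt_atTop (1 : ℝ)] with T h1 h2 hT g hg
  have hL := Real.log_pos hT
  have hX := X_pos hT
  set V : ℝ := Real.log T * T with hV
  have hVX : V = 2 * Real.pi * X T := by
    rw [hV]
    unfold X
    field_simp
  set n : ℕ := ⌈(V + 2 * r ^ 3) * r⌉₊ with hn
  have hV0 : 0 < V := by positivity
  have hn1 : V + 2 * r ^ 3 ≤ n * (1 / r) := by
    rw [mul_one_div, le_div_iff₀ hrp]
    exact Nat.le_ceil _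
  have hn2 : n * (1 / r) ≤ V + 2 * r ^ 3 + 1 / r := by
    have h3 := (Nat.ceil_lt_add_one (a := (V + 2 * r ^ 3) * r) (by positivity)).le
    rw [mul_one_div, div_le_iff₀ hrp]
    have : (V + 2 * r ^ 3 + 1 / r) * r = (V + 2 * r ^ 3) * r + 1 := by
      field_simp
    rw [this]
    exact h3
  have h3 := psd2 (H343.ZSide.Z0 T) (fun s => H343.ZSide.mz s * g s) (fun s => Real.log T * s.im)
    (Finset.range n) (fun _ => 1 / r / (2 * Real.pi)) (fun j => -r ^ 3 + j * (1 / r)) hrp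
  have h4 := lat_energy hr n
  have h5 : (∑ s ∈ H343.ZSide.Z0 T, H343.ZSide.mz s * g s) * (1 / 2 * (1 - 3 / r ^ 2)) ≤
      ∑ s ∈ H343.ZSide.Z0 T, ∑ j ∈ Finset.range n, H343.ZSide.mz s * g s *
        (1 / r / (2 * Real.pi)) * ph r (Real.log T * s.im - (-r ^ 3 + j * (1 / r))) := by
    rw [Finset.sum_mul]
    refine Finset.sum_le_sum fun s hs => ?_
    obtain ⟨h6, h7⟩ := mem_Z hs
    have h8 := cross hr (V := V) (v := Real.log T * s.im) (by positivity) (by
      rw [hV]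
      gcongr) hn1
    have h9 : ∑ j ∈ Finset.range n, H343.ZSide.mz s * g s *
        (1 / r / (2 * Real.pi)) * ph r (Real.log T * s.im - (-r ^ 3 + j * (1 / r))) =
        H343.ZSide.mz s * g s * (1 / (2 * Real.pi) * ∑ j ∈ Finset.range n, 1 / r *
          ph r (Real.log T * s.im - (-r ^ 3 + j * (1 / r)))) := by
      rw [Finset.mul_sum, Finset.mul_sum]
      refine Finset.sum_congr rfl fun j _ => ?_
      ring
    rw [h9]
    have h10 : 0 ≤ H343.ZSide.mz s * g s := mul_nonneg (mz_nonneg s) (hg s).1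
    refine mul_le_mul_of_nonneg_left ?_ h10
    calc 1 / 2 * (1 - 3 / r ^ 2) = 1 / (2 * Real.pi) * (Real.pi * (1 - 3 / r ^ 2)) := by
          field_simp
      _ ≤ _ := by gcongr
  set G := ∑ s ∈ H343.ZSide.Z0 T, H343.ZSide.mz s * g s with hG
  have hG0 : 0 ≤ G := Finset.sum_nonneg fun s _ => mul_nonneg (mz_nonneg s) (hg s).1
  have hG1 : G ≤ 2 * X T := by
    have h6 : G ≤ NZ T := by
      rw [← NZ_sum]
      exact Finset.sum_le_sum fun s _ => mul_le_of_le_one_right (mz_nonneg s) (hg s).2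
    linarith [h2.2]
  set u := 1 / r ^ 2 with hu
  have hu0 : 0 < u := by positivity
  have hu1 : u ≤ 1 := by
    rw [hu, div_le_one (by positivity)]
    nlinarith
  have e3 : 3 / r ^ 2 = 3 * u := by
    rw [hu]
    ring
  have e8 : 8 / r ^ 2 = 8 * u := by
    rw [hu]
    ring
  rw [e3] at h4 h5
  rw [e8]
  -- the energy of the lattice
  have h6 : (1 + 3 * u) * (n * (1 / r)) / (4 * Real.pi) ≤ X T / 2 + 2 * u * X T := by
    have h7 : (1 + 3 * u) * (n * (1 / r)) ≤ (1 + 3 * u) * (2 * Real.pi * X T + 3 * r ^ 3) := by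
      have h8 : 1 / r ≤ r ^ 3 := by
        rw [div_le_iff₀ hrp]
        nlinarith [one_le_pow₀ (n := 4) hr]
      gcongr
      linarith
    rw [div_le_iff₀ (by positivity)]
    refine h7.trans ?_
    have h8 : u * (40 * r ^ 6) = 40 * r ^ 4 := by
      rw [hu]
      field_simp
    have h9 : u * (40 * r ^ 6) ≤ u * X T := by gcongr
    have h10 : r ^ 3 ≤ r ^ 4 := pow_le_pow_right₀ hr (by norm_num)
    have h11 : (1 + 3 * u) * (3 * r ^ 3) ≤ 12 * r ^ 4 := by
      have : 0 < r ^ 3 := by positivity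
      nlinarith
    have h12 : 12 * r ^ 4 ≤ u * X T := by
      have : 0 < r ^ 4 := by positivity
      linarith
    have h13 : 0 ≤ u * X T := by positivity
    nlinarith
  have h7 : G * (1 / 2 * (1 - 3 * u)) * 2 ≤ (∑ i ∈ H343.ZSide.Z0 T, ∑ j ∈ H343.ZSide.Z0 T,
      H343.ZSide.mz i * g i * (H343.ZSide.mz j * g j) *
        ph r (Real.log T * i.im - Real.log T * j.im)) + (X T / 2 + 2 * u * X T) := by
    linarith
  have h8 : u * G ≤ u * (2 * X T) := by gcongr
  linarith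

end Pool.Agent.Helper69.AH
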