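import Pool.Agent.Helper69.AH.Conv

/-! Periodicity in the mean, and the gap below `2`. -/

open Filter Topology Complex MeasureTheory
open scoped FourierTransform SchwartzMap

namespace Pool.Agent.Helper69.AH

open H332B Pool.Agent.Helper84.OS Pool.Agent.Helper69.PC

variable {l : Filter ℝ}

/-- `F` is periodic in the mean, with period `b T` -/
def Per (l : Filter ℝ) (b : ℝ → ℝ) : Prop := ∀ g : ℝ → ℝ,
  ContDiff ℝ ((⊤ : ℕ∞) : WithTop ℕ∞) g → HasCompactSupport g →
  Tendsto (fun T => ((∫ a, g a * Wp T ((a + b T) * Real.log T)) -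
    ∫ a, g a * Wp T (a * Real.log T)) / X T) l (𝓝 0)

lemma cos_integrable {g : ℝ → ℝ} (hg : Continuous g) (hs : HasCompactSupport g) (b v : ℝ) :
    Integrable (fun a => g a * Real.cos ((a + b) * v)) :=
  (hg.mul (by fun_prop)).integrable_of_hasCompactSupport hs.mul_right

lemma int_shift (hRH : RiemannHypothesis) {g : ℝ → ℝ} (hg : Continuous g)
    (hs : HasCompactSupport g) (T b : ℝ) :
    ∫ a, g a * Wp T ((a + b) * Real.log T) = K2 T (fun x => 4 / (4 + x ^ 2) *
      ∫ a, g a * Real.cos ((a + b) * (Real.log T * x))) := by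
  have h1 : ∀ a : ℝ, g a * Wp T ((a + b) * Real.log T) = ∑ s ∈ H343.ZSide.Z0 T,
      ∑ s' ∈ H343.ZSide.Z0 T, (H343.ZSide.mz s * H343.ZSide.mz s' *
        (4 / (4 + (s.im - s'.im) ^ 2))) *
        (g a * Real.cos ((a + b) * (Real.log T * (s.im - s'.im)))) := by
    intro a
    rw [wp_cos hRH]
    unfold K2
    rw [Finset.mul_sum]
    refine Finset.sum_congr rfl fun s _ => ?_
    rw [Finset.mul_sum]
    refine Finset.sum_congr rfl fun s' _ => ?_
    ring
  simp_rw [h1]
  rw [MeasureTheory.integral_finsetSum]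
  · unfold K2
    refine Finset.sum_congr rfl fun s _ => ?_
    rw [MeasureTheory.integral_finsetSum]
    · refine Finset.sum_congr rfl fun s' _ => ?_
      rw [MeasureTheory.integral_const_mul]
      ring
    · intro s' _
      exact (cos_integrable hg hs _ _).const_mul _
  · intro s _
    refine MeasureTheory.integrable_finsetSum _ fun s' _ => ?_
    exact (cos_integrable hg hs _ _).const_mul _

/-- the decay of the transforms -/
lemma decay {g : ℝ → ℝ} (hg : ContDiff ℝ ((⊤ : ℕ∞) : WithTop ℕ∞) g) (hs : HasCompactSupport g) :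
    ∃ C : ℝ, 0 < C ∧ ∀ v : ℝ, |∫ a, g a * Real.cos (a * v)| ≤ C * ph 1 v ∧
      |∫ a, g a * Real.sin (a * v)| ≤ C * ph 1 v := by
  have hgc : ContDiff ℝ ((⊤ : ℕ∞) : WithTop ℕ∞) (fun x => (g x : ℂ)) :=
    Complex.ofRealCLM.contDiff.comp hg
  have hsc : HasCompactSupport (fun x => (g x : ℂ)) := hs.comp_left (g := fun t : ℝ => (t : ℂ))
    Complex.ofReal_zero
  set S : 𝓢(ℝ, ℂ) := hsc.toSchwartzMap hgc with hS
  have hSa : ∀ x, S x = (g x : ℂ) := fun x => rfl
  set G : 𝓢(ℝ, ℂ) := 𝓕 S with hG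
  obtain ⟨C0, hC0, h0⟩ := G.decay 0 0
  obtain ⟨C2, hC2, h2⟩ := G.decay 2 0
  have hpi := Real.pi_pos
  refine ⟨(C0 + C2) * (4 * Real.pi ^ 2 + 1), by positivity, fun v => ?_⟩
  have hval : G (v / (2 * Real.pi)) = ((∫ a, g a * Real.cos (a * v) : ℝ) : ℂ) +
      ((-∫ a, g a * Real.sin (a * v) : ℝ) : ℂ) * I := by
    rw [hG, SchwartzMap.fourier_coe, Real.fourier_real_eq_integral_exp_smul]
    have hi1 : Integrable (fun a => g a * Real.cos (a * v)) :=
      (hg.continuous.mul (by fun_prop)).integrable_of_hasCompactSupport hs.mul_right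
    have hi2 : Integrable (fun a => g a * Real.sin (a * v)) :=
      (hg.continuous.mul (by fun_prop)).integrable_of_hasCompactSupport hs.mul_right
    rw [← integral_neg, ← integral_complex_ofReal, ← integral_complex_ofReal,
      ← integral_mul_const, ← integral_add]
    · refine integral_congr_ae (Eventually.of_forall fun a => ?_)
      show cexp (((-2 * Real.pi * a * (v / (2 * Real.pi)) : ℝ) : ℂ) * I) • S a = _
      rw [hSa, smul_eq_mul, show -2 * Real.pi * a * (v / (2 * Real.pi)) = -(a * v) by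
        field_simp]
      rw [Complex.exp_mul_I, ← Complex.ofReal_cos, ← Complex.ofReal_sin, Real.cos_neg,
        Real.sin_neg]
      push_cast
      ring
    · exact hi1.ofReal
    · exact (hi2.neg.ofReal).mul_const _
  have a0 := h0 (v / (2 * Real.pi))
  have a2 := h2 (v / (2 * Real.pi))
  rw [norm_iteratedFDeriv_zero] at a0 a2
  rw [pow_zero, one_mul] at a0
  rw [Real.norm_eq_abs, sq_abs] at a2
  have hn : ‖G (v / (2 * Real.pi))‖ ≤ (C0 + C2) * (4 * Real.pi ^ 2 + 1) * ph 1 v := by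
    unfold ph
    rw [mul_one_div, le_div_iff₀ (by positivity)]
    have e1 : v ^ 2 * ‖G (v / (2 * Real.pi))‖ ≤ 4 * Real.pi ^ 2 * C2 := by
      have e2 : (v / (2 * Real.pi)) ^ 2 * ‖G (v / (2 * Real.pi))‖ * (4 * Real.pi ^ 2) =
          v ^ 2 * ‖G (v / (2 * Real.pi))‖ := by
        field_simp
        ring
      rw [← e2]
      nlinarith [mul_pos hpi hpi]
    have e3 : 0 ≤ 4 * Real.pi ^ 2 * C0 := by positivity
    nlinarith
  have hre : (G (v / (2 * Real.pi))).re = ∫ a, g a * Real.cos (a * v) := by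
    rw [hval]
    simp
  have him : (G (v / (2 * Real.pi))).im = -∫ a, g a * Real.sin (a * v) := by
    rw [hval]
    simp
  constructor
  · rw [← hre]
    exact (Complex.abs_re_le_norm _).trans hn
  · have := (Complex.abs_im_le_norm (G (v / (2 * Real.pi)))).trans hn
    rwa [him, abs_neg] at this

/-- **the lattice implies periodicity** -/
theorem Dq_Per (hRH : RiemannHypothesis) (hl : l ≤ atTop) {b : ℝ → ℝ} (h : Dq l b) : Per l b := by
  intro g hg hs
  obtain ⟨C, hC, hdec⟩ := decay hg hs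
  have hgc := hg.continuous
  rw [Metric.tendsto_nhds]
  intro ε hε
  -- parameters
  set η : ℝ := ε / (200 * C) with hη
  have hη0 : 0 < η := by positivity
  set κ : ℝ := ε / (4 * C * (1 + 1 / η)) with hκ
  have hκ0 : 0 < κ := by positivity
  filter_upwards [Dq_mean hRH hl h (r := 1) one_pos hκ0, (tail hRH).filter_mono hl,
    (eventually_gt_atTop (1 : ℝ)).filter_mono hl] with T h1 h2 hT
  have hX := X_pos hT
  rw [Real.dist_eq, sub_zero, abs_div, abs_of_pos hX, div_lt_iff₀ hX]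
  have h3 := int_shift hRH hgc hs T (b T)
  have h4 := int_shift hRH hgc hs T 0
  simp only [add_zero] at h4
  rw [h3, h4]
  have hpt : ∀ x : ℝ, |4 / (4 + x ^ 2) * (∫ a, g a * Real.cos ((a + b T) * (Real.log T * x))) -
      4 / (4 + x ^ 2) * (∫ a, g a * Real.cos (a * (Real.log T * x)))| ≤
      C * (η / 2) * (1 / (1 + (Real.log T * x) ^ 2)) +
        C * (1 + 1 / η) * (ph 1 (Real.log T * x) * q (b T) T x) := by
    intro x
    set v := Real.log T * x with hv
    obtain ⟨d1, d2⟩ := hdec v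
    have e0 : (∫ a, g a * Real.cos ((a + b T) * v)) =
        Real.cos (b T * v) * (∫ a, g a * Real.cos (a * v)) -
          Real.sin (b T * v) * ∫ a, g a * Real.sin (a * v) := by
      rw [← integral_const_mul, ← integral_const_mul, ← integral_sub]
      · refine integral_congr_ae (Eventually.of_forall fun a => ?_)
        show g a * Real.cos ((a + b T) * v) = Real.cos (b T * v) * (g a * Real.cos (a * v)) -
          Real.sin (b T * v) * (g a * Real.sin (a * v))
        rw [add_mul, Real.cos_add]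
        ring
      · exact ((hgc.mul (by fun_prop)).integrable_of_hasCompactSupport hs.mul_right).const_mul _
      · exact ((hgc.mul (by fun_prop)).integrable_of_hasCompactSupport hs.mul_right).const_mul _
    rw [e0]
    set Ic := ∫ a, g a * Real.cos (a * v) with hIc
    set Is := ∫ a, g a * Real.sin (a * v) with hIs
    have e1 : 4 / (4 + x ^ 2) * (Real.cos (b T * v) * Ic - Real.sin (b T * v) * Is) -
        4 / (4 + x ^ 2) * Ic = 4 / (4 + x ^ 2) *
          (-(q (b T) T x) * Ic - Real.sin (b T * v) * Is) := by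
      unfold q
      rw [← hv]
      ring
    rw [e1, abs_mul, abs_of_nonneg (wt_le x).1]
    have e2 : |-(q (b T) T x) * Ic - Real.sin (b T * v) * Is| ≤
        q (b T) T x * |Ic| + |Real.sin (b T * v)| * |Is| := by
      refine (abs_sub _ _).trans (le_of_eq ?_)
      rw [abs_mul, abs_mul, abs_neg, abs_of_nonneg (q_nonneg (b T) T x)]
    have hq := q_nonneg (b T) T x
    have e3 : |Real.sin (b T * v)| ≤ η / 2 + 1 / η * q (b T) T x := by
      have e4 : |Real.sin (b T * v)| ^ 2 ≤ 2 * q (b T) T x := by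
        rw [sq_abs]
        unfold q
        rw [← hv]
        nlinarith [Real.sin_sq_add_cos_sq (b T * v), Real.cos_le_one (b T * v),
          Real.neg_one_le_cos (b T * v)]
      have e5 : 2 * (η * |Real.sin (b T * v)|) ≤ η ^ 2 + |Real.sin (b T * v)| ^ 2 := by
        nlinarith [sq_nonneg (η - |Real.sin (b T * v)|)]
      have e6 : η * |Real.sin (b T * v)| ≤ η * (η / 2 + 1 / η * q (b T) T x) := by
        have e7 : η * (η / 2 + 1 / η * q (b T) T x) = η ^ 2 / 2 + q (b T) T x := by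
          field_simp
        rw [e7]
        linarith
      exact le_of_mul_le_mul_left e6 hη0
    have hph : 1 / (1 + v ^ 2) = ph 1 v := by
      unfold ph
      rw [one_pow]
    rw [hph]
    have hphn := ph_nonneg one_pos v
    calc 4 / (4 + x ^ 2) * |-(q (b T) T x) * Ic - Real.sin (b T * v) * Is| ≤
        1 * (q (b T) T x * |Ic| + |Real.sin (b T * v)| * |Is|) := by
          gcongr
          exact (wt_le x).2
      _ ≤ 1 * (q (b T) T x * (C * ph 1 v) + (η / 2 + 1 / η * q (b T) T x) * (C * ph 1 v)) := by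
          gcongr
      _ = _ := by ring
  refine lt_of_le_of_lt (K2_sub_abs _ _ _ hpt) ?_
  rw [K2_add, K2_smul, K2_smul]
  have h5 : C * (η / 2) * K2 T (fun x => 1 / (1 + (Real.log T * x) ^ 2)) ≤
      C * (η / 2) * (100 * X T) := by gcongr
  have h6 : C * (1 + 1 / η) * K2 T (fun x => ph 1 (Real.log T * x) * q (b T) T x) ≤
      C * (1 + 1 / η) * (κ * X T) := by gcongr
  have h7 : C * (η / 2) * (100 * X T) = ε / 4 * X T := by
    rw [hη]
    field_simp
    ring
  have h8 : C * (1 + 1 / η) * (κ * X T) = ε / 4 * X T := by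
    rw [hκ]
    field_simp
  have h9 : 0 < ε * X T := by positivity
  linarith

/-! ### bumps -/

lemma bump_cd {a₀ b₀ : ℝ} (x₀ : ℝ) :
    ContDiff ℝ ((⊤ : ℕ∞) : WithTop ℕ∞) (fun x => cut a₀ b₀ (x - x₀)) :=
  cut_smooth.comp (contDiff_id.sub contDiff_const)

lemma bump_cs {a₀ b₀ : ℝ} (ha : 0 ≤ a₀) (hab : a₀ < b₀) (x₀ : ℝ) :
    HasCompactSupport (fun x => cut a₀ b₀ (x - x₀)) := by
  refine HasCompactSupport.intro (isCompact_Icc (a := x₀ - b₀) (b := x₀ + b₀)) fun x hx => ?_
  apply cut_zero ha hab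
  by_contra hc
  push Not at hc
  have := abs_lt.1 hc
  exact hx ⟨by linarith [this.1], by linarith [this.2]⟩

/-- the integral against a bump -/
lemma bump_int (hRH : RiemannHypothesis) {T : ℝ} (hT : 1 < T) {a₀ b₀ : ℝ} (ha : 0 ≤ a₀)
    (hab : a₀ < b₀) (x₀ b : ℝ) :
    X T * (cum T (x₀ + b + a₀) - cum T (x₀ + b - a₀)) ≤
      ∫ a, cut a₀ b₀ (a - x₀) * Wp T ((a + b) * Real.log T) ∧
    ∫ a, cut a₀ b₀ (a - x₀) * Wp T ((a + b) * Real.log T) ≤
      X T * (cum T (x₀ + b + b₀) - cum T (x₀ + b - b₀)) := by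
  have hX := X_pos hT
  have hW : Continuous fun a : ℝ => Wp T ((a + b) * Real.log T) :=
    (Wc hRH T).comp (continuous_id.add continuous_const)
  have hcut : Continuous fun a : ℝ => cut a₀ b₀ (a - x₀) := (bump_cd x₀).continuous
  have hwin : ∀ c : ℝ, ∫ a in (x₀ - c)..(x₀ + c), Wp T ((a + b) * Real.log T) =
      X T * (cum T (x₀ + b + c) - cum T (x₀ + b - c)) := by
    intro c
    have h1 := intervalIntegral.integral_comp_add_right (a := x₀ - c) (b := x₀ + c)
      (fun t => Wp T (t * Real.log T)) b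
    rw [show ∫ a in (x₀ - c)..(x₀ + c), Wp T ((a + b) * Real.log T) =
      ∫ x in x₀ - c + b..x₀ + c + b, Wp T (x * Real.log T) from h1]
    rw [cum_sub hRH, mul_div_cancel₀ _ hX.ne']
    congr 1 <;> ring
  have hfull : ∫ a, cut a₀ b₀ (a - x₀) * Wp T ((a + b) * Real.log T) =
      ∫ a in (x₀ - b₀)..(x₀ + b₀), cut a₀ b₀ (a - x₀) * Wp T ((a + b) * Real.log T) := by
    rw [intervalIntegral.integral_of_le (by linarith), ← integral_Icc_eq_integral_Ioc,
      setIntegral_eq_integral_of_forall_compl_eq_zero]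
    intro x hx
    rw [cut_zero ha hab, zero_mul]
    by_contra hc
    push Not at hc
    have := abs_lt.1 hc
    exact hx ⟨by linarith [this.1], by linarith [this.2]⟩
  have hci : ∀ c d : ℝ, IntervalIntegrable (fun a => cut a₀ b₀ (a - x₀) *
      Wp T ((a + b) * Real.log T)) volume c d := fun c d => (hcut.mul hW).intervalIntegrable _ _
  constructor
  · rw [← hwin, hfull]
    have h1 : ∫ a in (x₀ - a₀)..(x₀ + a₀), Wp T ((a + b) * Real.log T) =
        ∫ a in (x₀ - a₀)..(x₀ + a₀), cut a₀ b₀ (a - x₀) * Wp T ((a + b) * Real.log T) := by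
      refine intervalIntegral.integral_congr fun a hx => ?_
      rw [Set.uIcc_of_le (by linarith)] at hx
      show _ = cut a₀ b₀ (a - x₀) * _
      rw [cut_one ha hab (abs_le.2 ⟨by linarith [hx.1], by linarith [hx.2]⟩), one_mul]
    rw [h1, ← intervalIntegral.integral_add_adjacent_intervals (hci (x₀ - b₀) (x₀ - a₀))
      (hci (x₀ - a₀) (x₀ + b₀)),
      ← intervalIntegral.integral_add_adjacent_intervals (hci (x₀ - a₀) (x₀ + a₀))
      (hci (x₀ + a₀) (x₀ + b₀))]
    have h2 : 0 ≤ ∫ a in (x₀ - b₀)..(x₀ - a₀), cut a₀ b₀ (a - x₀) *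
        Wp T ((a + b) * Real.log T) :=
      intervalIntegral.integral_nonneg (by linarith) fun a _ =>
        mul_nonneg (cut_nonneg _) (Wn T _)
    have h3 : 0 ≤ ∫ a in (x₀ + a₀)..(x₀ + b₀), cut a₀ b₀ (a - x₀) *
        Wp T ((a + b) * Real.log T) :=
      intervalIntegral.integral_nonneg (by linarith) fun a _ =>
        mul_nonneg (cut_nonneg _) (Wn T _)
    linarith
  · rw [← hwin, hfull]
    refine intervalIntegral.integral_mono_on (by linarith) (hci _ _)
      (hW.intervalIntegrable _ _) fun a _ => ?_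
    exact mul_le_of_le_one_left (Wn T _) (cut_le_one _)

/-- **periodicity implies mass one** -/
theorem Per_M1 (hRH : RiemannHypothesis) (hl : l ≤ atTop) {b : ℝ → ℝ} (h : Per l b) : M1 l b := by
  intro ε hε c hc
  set ρ : ℝ := min ε (1 / 2) with hρ
  have hρ0 : 0 < ρ := lt_min hε (by norm_num)
  have hρ1 : ρ ≤ 1 / 2 := min_le_right _ _
  have hρε : ρ ≤ ε := min_le_left _ _
  have h1 := h (fun x => cut (ρ / 2) ρ (x - 0)) (bump_cd 0)
    (bump_cs (by positivity) (by linarith) 0)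
  have h2 := (Metric.tendsto_nhds.1 h1) ((1 - c) / 4) (by linarith)
  have h3 := ((Metric.tendsto_nhds.1 (cum_lim hRH (b := ρ / 2) (by positivity) (by linarith)))
    ((1 - c) / 4) (by linarith)).filter_mono hl
  filter_upwards [h2, h3, (eventually_gt_atTop (1 : ℝ)).filter_mono hl] with T h2 h3 hT
  have hX := X_pos hT
  rw [Real.dist_eq, abs_lt] at h2 h3
  rw [sub_zero, lt_div_iff₀ hX] at h2
  obtain ⟨-, h4⟩ := bump_int hRH hT (a₀ := ρ / 2) (b₀ := ρ) (by positivity) (by linarith) 0 (b T)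
  obtain ⟨h5, -⟩ := bump_int hRH hT (a₀ := ρ / 2) (b₀ := ρ) (by positivity) (by linarith) 0 0
  simp only [zero_add, add_zero, zero_sub] at h4 h5
  rw [cum_neg hRH] at h5
  have h6 : X T * (1 - (1 - c) / 2) ≤ X T * (cum T (ρ / 2) - -cum T (ρ / 2)) := by
    refine mul_le_mul_of_nonneg_left ?_ hX.le
    nlinarith [h3.1, sq_nonneg (ρ / 2)]
  have h7 : cum T (b T + ρ) - cum T (b T - ρ) ≤ cum T (b T + ε) - cum T (b T - ε) := by
    have e1 := cum_mono hRH hT (a := b T + ρ) (b := b T + ε) (by linarith)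
    have e2 := cum_mono hRH hT (a := b T - ε) (b := b T - ρ) (by linarith)
    linarith
  refine le_trans ?_ h7
  have h8 : c * X T ≤ (cum T (b T + ρ) - cum T (b T - ρ)) * X T := by
    have h9 : 0 < (1 - c) * X T := mul_pos (by linarith) hX
    linarith [h2.1]
  exact le_of_mul_le_mul_right h8 hX

/-- **no periodicity below two** -/
theorem no_per (hRH : RiemannHypothesis) (hl : l ≤ atTop) [l.NeBot] {b : ℝ} (hb0 : 0 < b)
    (hb2 : b < 2) : ¬ Per l (fun _ => b) := by
  intro h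
  set κ : ℝ := min (b / 2) (1 - b / 2) / 2 with hκ
  have hκ1 : 2 * κ ≤ b / 2 := by
    rw [hκ]
    linarith [min_le_left (b / 2) (1 - b / 2)]
  have hκ2 : 2 * κ ≤ 1 - b / 2 := by
    rw [hκ]
    linarith [min_le_right (b / 2) (1 - b / 2)]
  have hκ0 : 0 < κ := by
    rw [hκ]
    have : 0 < min (b / 2) (1 - b / 2) := lt_min (by linarith) (by linarith)
    linarith
  set ρ : ℝ := κ / 2 with hρ
  have hρ0 : 0 < ρ := by positivity
  set ρ' : ℝ := ρ * (1 - κ) with hρ'
  have hκ3 : κ ≤ 1 / 4 := by linarith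
  have hρ'0 : 0 < ρ' := by
    rw [hρ']
    exact mul_pos hρ0 (by linarith)
  have hρ'1 : ρ' < ρ := by
    rw [hρ']
    nlinarith
  set x₀ : ℝ := -(b / 2 + κ) with hx₀
  have h1 := h (fun x => cut ρ' ρ (x - x₀)) (bump_cd x₀) (bump_cs hρ'0.le hρ'1 x₀)
  set θ : ℝ := ρ * κ / 8 with hθ
  have hθ0 : 0 < θ := by positivity
  have h2 := (Metric.tendsto_nhds.1 h1) θ hθ0
  have L : ∀ c : ℝ, 0 < c → c < 1 → ∀ᶠ T in l, |cum T c - (1 / 2 + c ^ 2 / 2)| < θ := by
    intro c hc0 hc1
    exact (Metric.tendsto_nhds.1 ((cum_lim hRH hc0 hc1).mono_left hl)) θ hθ0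
  have h3 := L (b / 2 + κ + ρ') (by linarith) (by linarith)
  have h4 := L (b / 2 + κ - ρ') (by linarith) (by linarith)
  have h5 := L (b / 2 - κ + ρ) (by linarith) (by linarith)
  have h6 := L (b / 2 - κ - ρ) (by linarith) (by linarith)
  obtain ⟨T, h2, h3, h4, h5, h6, hT⟩ := (h2.and (h3.and (h4.and (h5.and (h6.and
    ((eventually_gt_atTop (1 : ℝ)).filter_mono hl)))))).exists
  have hX := X_pos hT
  beta_reduce at h2
  rw [Real.dist_eq, abs_lt] at h2
  rw [abs_lt] at h3 h4 h5 h6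
  rw [sub_zero, lt_div_iff₀ hX] at h2
  obtain ⟨-, h7⟩ := bump_int hRH hT (a₀ := ρ') (b₀ := ρ) hρ'0.le hρ'1 x₀ b
  obtain ⟨h8, -⟩ := bump_int hRH hT (a₀ := ρ') (b₀ := ρ) hρ'0.le hρ'1 x₀ 0
  simp only [add_zero] at h8
  rw [show x₀ + ρ' = -(b / 2 + κ - ρ') by rw [hx₀]; ring,
    show x₀ - ρ' = -(b / 2 + κ + ρ') by rw [hx₀]; ring, cum_neg hRH, cum_neg hRH] at h8
  rw [show x₀ + b + ρ = b / 2 - κ + ρ by rw [hx₀]; ring,
    show x₀ + b - ρ = b / 2 - κ - ρ by rw [hx₀]; ring] at h7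
  have h9 : cum T (b / 2 - κ + ρ) - cum T (b / 2 - κ - ρ) + θ <
      -cum T (b / 2 + κ - ρ') - -cum T (b / 2 + κ + ρ') := by
    have e1 : 2 * (b / 2 + κ) * ρ' - 2 * (b / 2 - κ) * ρ ≥ 8 * θ := by
      rw [hρ', hθ]
      have : b / 2 + κ ≤ 1 := by linarith
      nlinarith [mul_pos hρ0 hκ0, mul_nonneg (mul_pos hρ0 hκ0).le (sub_nonneg.2 this)]
    nlinarith [h3.1, h4.2, h5.2, h6.1]
  have h10 : X T * (cum T (b / 2 - κ + ρ) - cum T (b / 2 - κ - ρ) + θ) <
      X T * (-cum T (b / 2 + κ - ρ') - -cum T (b / 2 + κ + ρ')) :=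
    mul_lt_mul_of_pos_left h9 hX
  linarith [h2.1]

/-- **the masses are uniformly below one between `0` and `2`** -/
theorem gap (hRH : RiemannHypothesis) {δ : ℝ} (hδ : 0 < δ) : ∃ ε : ℝ, 0 < ε ∧ ∃ c : ℝ, c < 1 ∧
    ∀ᶠ T in atTop, ∀ b : ℝ, δ ≤ b → b ≤ 2 - δ → cum T (b + ε) - cum T (b - ε) ≤ c := by
  by_contra hcon
  push Not at hcon
  have hex : ∀ n : ℕ, ∃ T : ℝ, (n : ℝ) + 2 ≤ T ∧ ∃ b : ℝ, b ∈ Set.Icc δ (2 - δ) ∧
      1 - 1 / ((n : ℝ) + 1) < cum T (b + 1 / ((n : ℝ) + 1)) - cum T (b - 1 / ((n : ℝ) + 1)) := by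
    intro n
    have hn : (0 : ℝ) < 1 / ((n : ℝ) + 1) := by positivity
    have h1 := hcon (1 / ((n : ℝ) + 1)) hn (1 - 1 / ((n : ℝ) + 1)) (by linarith)
    obtain ⟨T, ⟨b, hb1, hb2, hb3⟩, hT2⟩ :=
      (h1.and_eventually (eventually_ge_atTop ((n : ℝ) + 2))).exists
    exact ⟨T, hT2, b, ⟨hb1, hb2⟩, hb3⟩
  choose T hT b hb hmass using hex
  obtain ⟨b₀, hb₀, φ, hφ, hlim⟩ := isCompact_Icc.tendsto_subseq hb
  set l : Filter ℝ := Filter.map (fun k => T (φ k)) atTop with hl
  have hl1 : l ≤ atTop := by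
    rw [hl]
    refine tendsto_atTop_mono (f := fun k : ℕ => ((φ k : ℕ) : ℝ)) (fun k => ?_)
      (tendsto_natCast_atTop_atTop.comp hφ.tendsto_atTop)
    have := hT (φ k)
    linarith
  have hne : l.NeBot := by
    rw [hl]
    exact Filter.map_neBot
  have hM : M1 l (fun _ => b₀) := by
    intro ε hε c hc
    rw [hl, Filter.eventually_map]
    have h1 := (Metric.tendsto_nhds.1 hlim) (ε / 2) (by positivity)
    have h2 : Tendsto (fun k : ℕ => 1 / (((φ k : ℕ) : ℝ) + 1)) atTop (𝓝 0) :=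
      tendsto_one_div_add_atTop_nhds_zero_nat.comp hφ.tendsto_atTop
    have h3 := h2.eventually (gt_mem_nhds (by positivity : (0 : ℝ) < ε / 2))
    have h4 := h2.eventually (gt_mem_nhds (by linarith : (0 : ℝ) < 1 - c))
    filter_upwards [h1, h3, h4] with k h1 h3 h4
    simp only [Function.comp] at h1
    rw [Real.dist_eq, abs_lt] at h1
    have hTk : 1 < T (φ k) := by
      have := hT (φ k)
      have : (0 : ℝ) ≤ (φ k : ℝ) := Nat.cast_nonneg _
      linarith
    have h5 := hmass (φ k)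
    have e1 := cum_mono hRH hTk (a := b (φ k) + 1 / (((φ k : ℕ) : ℝ) + 1)) (b := b₀ + ε)
      (by linarith [h1.2])
    have e2 := cum_mono hRH hTk (a := b₀ - ε) (b := b (φ k) - 1 / (((φ k : ℕ) : ℝ) + 1))
      (by linarith [h1.1])
    linarith
  exact no_per hRH hl1 (by linarith [hb₀.1]) (by linarith [hb₀.2])
    (Dq_Per hRH hl1 (M1_Dq hRH hl1 hM))

/-- masses are at most one -/
theorem mass_le (hRH : RiemannHypothesis) {η : ℝ} (hη : 0 < η) : ∃ ε : ℝ, 0 < ε ∧
    ∀ᶠ T in atTop, ∀ b : ℝ, cum T (b + ε) - cum T (b - ε) ≤ 1 + η := by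
  obtain ⟨r0, hr0, hup⟩ := ph_upper hRH
  set u : ℝ := min (η / 8) (1 / 2) with hu
  have hu0 : 0 < u := lt_min (by positivity) (by norm_num)
  have hu1 : u ≤ 1 / 2 := min_le_right _ _
  have hu2 : u ≤ η / 8 := min_le_left _ _
  set r : ℝ := max r0 (6 / u) with hr
  have hr1 : r0 ≤ r := le_max_left _ _
  have hr2 : 6 / u ≤ r := le_max_right _ _
  have hrp : 0 < r := by linarith
  have hr11 : 1 ≤ r := hr0.trans hr1
  refine ⟨u / r, by positivity, ?_⟩
  filter_upwards [hup r hr1, eventually_gt_atTop (1 : ℝ)] with T h1 hT b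
  have hX := X_pos hT
  have h2 := mass_le_P hRH hT b hrp (by positivity : 0 ≤ u / r)
  have h3 := P_le_zero hrp T b
  have h4 : 1 - u ≤ Real.exp (-r * (u / r)) := by
    have h5 := Real.add_one_le_exp (-r * (u / r))
    have h6 : -r * (u / r) = -u := by field_simp
    rw [h6] at h5 ⊢
    linarith
  have h5 : 3 / r ^ 2 ≤ u / 2 := by
    rw [div_le_iff₀ hu0] at hr2
    rw [div_le_div_iff₀ (by positivity) (by norm_num)]
    have : r * u ≤ r ^ 2 * u := by
      have : r ≤ r ^ 2 := by nlinarith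
      gcongr
    linarith
  set m := cum T (b + u / r) - cum T (b - u / r) with hm
  have hm0 : 0 ≤ m := by
    have := cum_mono hRH hT (a := b - u / r) (b := b + u / r) (by
      have : 0 < u / r := by positivity
      linarith)
    rw [hm]
    linarith
  have h6 : (1 - u) * (X T * m) ≤ (1 + u) * X T := by
    have h7 : (1 - u) * (X T * m) ≤ Real.exp (-r * (u / r)) * (X T * m) := by gcongr
    have h8 : (1 / 2 + 3 / r ^ 2) * X T ≤ (1 / 2 + u / 2) * X T := by gcongr
    linarith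
  have h7 : (1 - u) * m ≤ 1 + u := by
    have h8 : X T * ((1 - u) * m) ≤ X T * (1 + u) := by linarith
    exact le_of_mul_le_mul_left h8 hX
  have h8 : m ≤ 3 := by nlinarith
  nlinarith

end Pool.Agent.Helper69.AH
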