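import Pool.Agent.Helper69.AH.Clu

/-! The three-point argument. -/

open Filter Topology Complex MeasureTheory

namespace Pool.Agent.Helper69.AH

open H332B Pool.Agent.Helper84.OS Pool.Agent.Helper69.PC

/-- the defect -/
noncomputable def q (b T x : ℝ) : ℝ := 1 - Real.cos (b * (Real.log T * x))

lemma q_nonneg (b T x : ℝ) : 0 ≤ q b T x := by
  unfold q
  linarith [Real.cos_le_one (b * (Real.log T * x))]

lemma q_le (b T x : ℝ) : q b T x ≤ 2 := by
  unfold q
  linarith [Real.neg_one_le_cos (b * (Real.log T * x))]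

lemma q_neg (b T x : ℝ) : q b T (-x) = q b T x := by
  unfold q
  rw [show b * (Real.log T * -x) = -(b * (Real.log T * x)) by ring, Real.cos_neg]

lemma q_tri (b T x y z : ℝ) : q b T (x - y) ≤ 2 * q b T (x - z) + 2 * q b T (y - z) := by
  unfold q
  set u := b * (Real.log T * (x - z)) with hu
  set v := b * (Real.log T * (y - z)) with hv
  rw [show b * (Real.log T * (x - y)) = u - v by rw [hu, hv]; ring, Real.cos_sub]
  nlinarith [sq_nonneg (Real.cos u + Real.cos v - 2), sq_nonneg (Real.sin u + Real.sin v),
    Real.sin_sq_add_cos_sq u, Real.sin_sq_add_cos_sq v]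

lemma ind_neg (T K x : ℝ) : ind T K (-x) = ind T K x := by
  unfold ind
  rw [mul_neg, abs_neg]

lemma ind_sub (T K x y : ℝ) : ind T K (x - y) = ind T K (y - x) := by
  rw [← ind_neg, neg_sub]

lemma sum_fst (T K : ℝ) (φ : ℂ → ℝ) : ∑ s ∈ H343.ZSide.Z0 T, ∑ s' ∈ H343.ZSide.Z0 T,
    H343.ZSide.mz s * H343.ZSide.mz s' * (ind T K (s.im - s'.im) * φ s) =
      ∑ s ∈ H343.ZSide.Z0 T, H343.ZSide.mz s * (φ s * nK T K s) := by
  refine Finset.sum_congr rfl fun s _ => ?_
  unfold nK Ak
  rw [Finset.mul_sum, Finset.mul_sum]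
  exact Finset.sum_congr rfl fun s' _ => by ring

lemma sum_snd (T K : ℝ) (φ : ℂ → ℝ) : ∑ s ∈ H343.ZSide.Z0 T, ∑ s' ∈ H343.ZSide.Z0 T,
    H343.ZSide.mz s * H343.ZSide.mz s' * (ind T K (s.im - s'.im) * φ s') =
      ∑ s ∈ H343.ZSide.Z0 T, H343.ZSide.mz s * (φ s * nK T K s) := by
  rw [Finset.sum_comm, ← sum_fst]
  refine Finset.sum_congr rfl fun s _ => Finset.sum_congr rfl fun s' _ => ?_
  rw [ind_sub T K s'.im s.im]
  ring

/-- the three-point inequality -/
lemma three {b T K r : ℝ} (hr : 0 < r) (hK : K ≤ r) (s s' : ℂ)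
    (h : |Real.log T * (s.im - s'.im)| ≤ K) :
    q b T (s.im - s'.im) * nK T r s ≤
      4 * r * Ak T (fun x => ph r (Real.log T * x) * q b T x) s +
        10 * r * Ak T (fun x => ph r (Real.log T * x) * q b T x) s' := by
  unfold nK Ak
  rw [Finset.mul_sum, Finset.mul_sum, Finset.mul_sum, ← Finset.sum_add_distrib]
  refine Finset.sum_le_sum fun t _ => ?_
  beta_reduce
  have hm := mz_nonneg t
  have h1 := q_nonneg b T (s.im - t.im)
  have h2 := q_nonneg b T (s'.im - t.im)
  have h3 := ph_nonneg hr (Real.log T * (s.im - t.im))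
  have h4 := ph_nonneg hr (Real.log T * (s'.im - t.im))
  have h5 : q b T (s.im - s'.im) * ind T r (s.im - t.im) ≤
      4 * r * (ph r (Real.log T * (s.im - t.im)) * q b T (s.im - t.im)) +
      10 * r * (ph r (Real.log T * (s'.im - t.im)) * q b T (s'.im - t.im)) := by
    unfold ind
    split_ifs with h6
    · have h7 := q_tri b T s.im s'.im t.im
      have h8 := ph_ge hr h6
      have h9 := ph_ge' hr (v := Real.log T * (s'.im - t.im)) (by
        have e1 : Real.log T * (s'.im - t.im) =
          Real.log T * (s.im - t.im) - Real.log T * (s.im - s'.im) := by ring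
        rw [e1]
        refine (abs_sub _ _).trans ?_
        linarith)
      have h10 : 2 * q b T (s.im - t.im) ≤
          4 * r * (ph r (Real.log T * (s.im - t.im)) * q b T (s.im - t.im)) := by
        have e2 : 4 * r * (1 / (2 * r) * q b T (s.im - t.im)) = 2 * q b T (s.im - t.im) := by
          field_simp
          ring
        rw [← e2]
        gcongr
      have h11 : 2 * q b T (s'.im - t.im) ≤
          10 * r * (ph r (Real.log T * (s'.im - t.im)) * q b T (s'.im - t.im)) := by
        have e2 : 10 * r * (1 / (5 * r) * q b T (s'.im - t.im)) = 2 * q b T (s'.im - t.im) := by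
          field_simp
          ring
        rw [← e2]
        gcongr
      linarith
    · rw [mul_zero]
      positivity
  have h6 := mul_le_mul_of_nonneg_left h5 hm
  linarith

open Classical in
/-- the pair sum of the defect in terms of its Poisson mean -/
lemma defect_le {b T K r R c : ℝ} (hr : 0 < r) (hK : K ≤ r) (hR : 0 < R) (hc : 0 < c) :
    K2 T (fun x => ind T K x * q b T x) ≤
      2 * R * (∑ s ∈ H343.ZSide.Z0 T, H343.ZSide.mz s * (if nK T r s < c * r then 1 else 0)) +
      4 * (∑ s ∈ H343.ZSide.Z0 T, H343.ZSide.mz s * (if R ≤ nK T K s then nK T K s else 0)) +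
      14 * R / c * K2 T (fun x => ph r (Real.log T * x) * q b T x) := by
  set e : ℂ → ℝ := Ak T (fun x => ph r (Real.log T * x) * q b T x) with he
  have he0 : ∀ s, 0 ≤ e s := fun s => Ak_nonneg (fun x =>
    mul_nonneg (ph_nonneg hr _) (q_nonneg _ _ _)) s
  set lo : ℂ → ℝ := fun s => if R ≤ nK T K s then 0 else 1 with hlo
  set hi : ℂ → ℝ := fun s => if R ≤ nK T K s then 1 else 0 with hhi
  set sp : ℂ → ℝ := fun s => if nK T r s < c * r then 1 else 0 with hsp
  have hlo0 : ∀ s, 0 ≤ lo s := fun s => by simp only [hlo]; split_ifs <;> norm_num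
  have hhi0 : ∀ s, 0 ≤ hi s := fun s => by simp only [hhi]; split_ifs <;> norm_num
  have hsp0 : ∀ s, 0 ≤ sp s := fun s => by simp only [hsp]; split_ifs <;> norm_num
  have h1 : K2 T (fun x => ind T K x * q b T x) ≤
      ∑ s ∈ H343.ZSide.Z0 T, ∑ s' ∈ H343.ZSide.Z0 T, (H343.ZSide.mz s * H343.ZSide.mz s' *
        (ind T K (s.im - s'.im) * (2 * (sp s * lo s) + 2 * hi s + 4 / c * (lo s * e s))) +
        H343.ZSide.mz s * H343.ZSide.mz s' *
        (ind T K (s.im - s'.im) * (2 * hi s' + 10 / c * (lo s' * e s')))) := by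
    unfold K2
    refine Finset.sum_le_sum fun s _ => Finset.sum_le_sum fun s' _ => ?_
    beta_reduce
    rw [← mul_add, ← mul_add]
    have hmm : 0 ≤ H343.ZSide.mz s * H343.ZSide.mz s' := mul_nonneg (mz_nonneg s) (mz_nonneg s')
    refine mul_le_mul_of_nonneg_left ?_ hmm
    by_cases hin : |Real.log T * (s.im - s'.im)| ≤ K
    · have h2 : ind T K (s.im - s'.im) = 1 := by
        unfold ind
        rw [if_pos hin]
      rw [h2, one_mul, one_mul]
      have h3 := q_le b T (s.im - s'.im)
      have h4 := three (b := b) hr hK s s' hin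
      have h5 := he0 s
      have h6 := he0 s'
      have h7 := q_nonneg b T (s.im - s'.im)
      have h8 : 0 ≤ 4 / c * (lo s * e s) := by
        have := hlo0 s
        positivity
      have h9 : 0 ≤ 10 / c * (lo s' * e s') := by
        have := hlo0 s'
        positivity
      have h10 : 0 ≤ sp s * lo s := mul_nonneg (hsp0 s) (hlo0 s)
      by_cases a : R ≤ nK T K s
      · have e1 : hi s = 1 := by simp only [hhi]; rw [if_pos a]
        rw [e1]
        have := hhi0 s'
        linarith
      by_cases a' : R ≤ nK T K s'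
      · have e1 : hi s' = 1 := by simp only [hhi]; rw [if_pos a']
        rw [e1]
        have := hhi0 s
        linarith
      have e1 : lo s = 1 := by simp only [hlo]; rw [if_neg a]
      have e2 : lo s' = 1 := by simp only [hlo]; rw [if_neg a']
      have e3 := hhi0 s
      have e4 := hhi0 s'
      by_cases d : nK T r s < c * r
      · have e5 : sp s = 1 := by simp only [hsp]; rw [if_pos d]
        rw [e5, e1]
        rw [e1] at h8
        linarith
      · push Not at d
        rw [e1] at h10 ⊢
        rw [e2]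
        have e6 : q b T (s.im - s'.im) * (c * r) ≤ 4 * r * e s + 10 * r * e s' :=
          (mul_le_mul_of_nonneg_left d h7).trans h4
        have e7 : q b T (s.im - s'.im) ≤ 4 / c * (1 * e s) + 10 / c * (1 * e s') := by
          have e8 : 4 / c * (1 * e s) + 10 / c * (1 * e s') =
              (4 * r * e s + 10 * r * e s') / (c * r) := by
            field_simp
          rw [e8, le_div_iff₀ (by positivity)]
          exact e6
        linarith
    · have h2 : ind T K (s.im - s'.im) = 0 := by
        unfold ind
        rw [if_neg hin]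
      rw [h2]
      simp
  simp_rw [Finset.sum_add_distrib] at h1
  rw [sum_fst, sum_snd] at h1
  refine h1.trans ?_
  rw [K2_Ak, ← he, Finset.mul_sum, Finset.mul_sum, Finset.mul_sum, ← Finset.sum_add_distrib,
    ← Finset.sum_add_distrib, ← Finset.sum_add_distrib]
  refine Finset.sum_le_sum fun s _ => ?_
  have hm := mz_nonneg s
  have hn := nK_nonneg T K s
  have h5 := he0 s
  have key : (2 * (sp s * lo s) + 2 * hi s + 4 / c * (lo s * e s)) * nK T K s +
      (2 * hi s + 10 / c * (lo s * e s)) * nK T K s ≤
      2 * R * (if nK T r s < c * r then 1 else 0) +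
      4 * (if R ≤ nK T K s then nK T K s else 0) + 14 * R / c * e s := by
    by_cases a : R ≤ nK T K s
    · have e1 : hi s = 1 := by simp only [hhi]; rw [if_pos a]
      have e2 : lo s = 0 := by simp only [hlo]; rw [if_pos a]
      rw [e1, e2, if_pos a]
      have e3 : (0 : ℝ) ≤ 2 * R * (if nK T r s < c * r then 1 else 0) := by
        split_ifs <;> positivity
      have e4 : 0 ≤ 14 * R / c * e s := by positivity
      nlinarith
    · have e1 : hi s = 0 := by simp only [hhi]; rw [if_neg a]
      have e2 : lo s = 1 := by simp only [hlo]; rw [if_neg a]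
      rw [e1, e2, if_neg a]
      push Not at a
      have e3 : 14 / c * e s * nK T K s ≤ 14 / c * e s * R := by gcongr
      have e4 : sp s * nK T K s ≤ sp s * R := mul_le_mul_of_nonneg_left a.le (hsp0 s)
      have e5 : (if nK T r s < c * r then (1 : ℝ) else 0) = sp s := by
        simp only [hsp]
      rw [e5]
      have e6 : 14 * R / c * e s = 14 / c * e s * R := by ring
      have e7 : 4 / c + 10 / c = 14 / c := by ring
      rw [e6]
      have e8 : (2 * (sp s * 1) + 2 * 0 + 4 / c * (1 * e s)) * nK T K s +
          (2 * 0 + 10 / c * (1 * e s)) * nK T K s =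
          2 * (sp s * nK T K s) + (4 / c + 10 / c) * e s * nK T K s := by ring
      rw [e8, e7]
      linarith
  have h6 := mul_le_mul_of_nonneg_left key hm
  linarith

end Pool.Agent.Helper69.AH
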