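import Pool.Agent.Helper69.AH.Ker
import Pool.Agent.Helper69.PC.Rep

/-! The upper bound for the pair sum of the Poisson kernel. -/

open Filter Topology Complex MeasureTheory

namespace Pool.Agent.Helper69.AH

open H332B Pool.Agent.Helper84.OS Pool.Agent.Helper69.PC

/-- integration by parts -/
lemma parts (hRH : RiemannHypothesis) {T : ℝ} (hT : 1 < T) (r B : ℝ) :
    ∫ α in (0 : ℝ)..B, Real.exp (-r * α) * Wp T (α * Real.log T) =
      X T * (Real.exp (-r * B) * cum T B + ∫ a in (0 : ℝ)..B, r * Real.exp (-r * a) * cum T a) := by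
  have hX := X_pos hT
  have hcont := Wc hRH T
  have hcc := cum_cont hRH T
  have hd : ∀ a ∈ Set.uIcc 0 B, HasDerivAt (fun a => Real.exp (-r * a) * cum T a)
      (-(r * Real.exp (-r * a) * cum T a) +
        Real.exp (-r * a) * (Wp T (a * Real.log T) / X T)) a := by
    intro a _
    have e1 : HasDerivAt (fun a => cum T a) (Wp T (a * Real.log T) / X T) a := by
      unfold cum
      exact (intervalIntegral.integral_hasDerivAt_right (Wi hRH T _ _)
        (hcont.stronglyMeasurableAtFilter _ _) hcont.continuousAt).div_const _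
    have e2 : HasDerivAt (fun a : ℝ => Real.exp (-r * a)) (Real.exp (-r * a) * (-r)) a := by
      have := ((hasDerivAt_id a).const_mul (-r)).exp
      simpa using this
    refine (e2.mul e1).congr_deriv ?_
    ring
  have hi1 : Continuous fun a : ℝ => r * Real.exp (-r * a) * cum T a := by fun_prop
  have hi2 : Continuous fun a : ℝ => Real.exp (-r * a) * (Wp T (a * Real.log T) / X T) := by
    fun_prop
  have h2 := intervalIntegral.integral_eq_sub_of_hasDerivAt hd
    ((hi1.neg.add hi2).intervalIntegrable _ _)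
  have h3 : ∫ a in (0 : ℝ)..B, (-(r * Real.exp (-r * a) * cum T a) +
        Real.exp (-r * a) * (Wp T (a * Real.log T) / X T)) =
      -(∫ a in (0 : ℝ)..B, r * Real.exp (-r * a) * cum T a) +
        (∫ a in (0 : ℝ)..B, Real.exp (-r * a) * Wp T (a * Real.log T)) / X T := by
    have hi3 : IntervalIntegrable (fun a : ℝ => -(r * Real.exp (-r * a) * cum T a)) volume 0 B :=
      hi1.neg.intervalIntegrable _ _
    rw [intervalIntegral.integral_add hi3
      (hi2.intervalIntegrable _ _), intervalIntegral.integral_neg,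
      ← intervalIntegral.integral_div]
    congr 1
    refine intervalIntegral.integral_congr fun a _ => ?_
    show Real.exp (-r * a) * (Wp T (a * Real.log T) / X T) =
      Real.exp (-r * a) * Wp T (a * Real.log T) / X T
    ring
  have h0 : cum T 0 = 0 := by unfold cum; simp
  rw [h3, h0, mul_zero, sub_zero] at h2
  have h4 : (∫ a in (0 : ℝ)..B, Real.exp (-r * a) * Wp T (a * Real.log T)) / X T =
      Real.exp (-r * B) * cum T B + ∫ a in (0 : ℝ)..B, r * Real.exp (-r * a) * cum T a := by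
    linarith
  rw [div_eq_iff hX.ne'] at h4
  rw [h4]
  ring

lemma int_low (r : ℝ) (hr : 0 < r) :
    ∫ a in (0 : ℝ)..(1 / 2), r * Real.exp (-r * a) * (1 / 2 + a ^ 2 / 2) ≤ 1 / 2 + 1 / r ^ 2 := by
  have hd : ∀ a ∈ Set.uIcc 0 (1 / 2 : ℝ), HasDerivAt
      (fun a => -(Real.exp (-r * a) * (1 / 2 + a ^ 2 / 2 + a / r + 1 / r ^ 2)))
      (r * Real.exp (-r * a) * (1 / 2 + a ^ 2 / 2)) a := by
    intro a _
    have e1 : HasDerivAt (fun a : ℝ => 1 / 2 + a ^ 2 / 2 + a / r + 1 / r ^ 2) (a + 1 / r) a := by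
      have h1 : HasDerivAt (fun a : ℝ => a ^ 2) (2 * a) a := by simpa using hasDerivAt_pow 2 a
      have h2 := (((h1.div_const 2).const_add (1 / 2)).add ((hasDerivAt_id a).div_const r)).add_const
        (1 / r ^ 2)
      refine h2.congr_deriv ?_
      ring
    have e2 : HasDerivAt (fun a : ℝ => Real.exp (-r * a)) (Real.exp (-r * a) * (-r)) a := by
      have := ((hasDerivAt_id a).const_mul (-r)).exp
      simpa using this
    refine (e2.mul e1).neg.congr_deriv ?_
    field_simp
    ring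
  rw [intervalIntegral.integral_eq_sub_of_hasDerivAt hd
    ((by fun_prop : Continuous fun a : ℝ => r * Real.exp (-r * a) *
      (1 / 2 + a ^ 2 / 2)).intervalIntegrable _ _)]
  have h1 := Real.exp_pos (-r * (1 / 2))
  have h2 : 0 ≤ Real.exp (-r * (1 / 2)) * (1 / 2 + (1 / 2) ^ 2 / 2 + 1 / 2 / r + 1 / r ^ 2) := by
    positivity
  rw [mul_zero, Real.exp_zero]
  have h3 : (1 : ℝ) * (1 / 2 + 0 ^ 2 / 2 + 0 / r + 1 / r ^ 2) = 1 / 2 + 1 / r ^ 2 := by
    norm_num
  rw [h3]
  linarith

/-- the limit of the low part -/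
lemma low_lim (hRH : RiemannHypothesis) (r : ℝ) :
    Tendsto (fun T => ∫ a in (0 : ℝ)..(1 / 2), r * Real.exp (-r * a) * cum T a) atTop
      (𝓝 (∫ a in (0 : ℝ)..(1 / 2), r * Real.exp (-r * a) * (1 / 2 + a ^ 2 / 2))) := by
  obtain ⟨C, T0, hC, hT0, hb⟩ := cum_bound hRH
  refine intervalIntegral.tendsto_integral_filter_of_dominated_convergence
    (fun a => |r| * Real.exp (-r * a) * (1 + C)) ?_ ?_ ?_ ?_
  · refine Eventually.of_forall fun T => ?_
    have := cum_cont hRH T
    exact (by fun_prop : Continuous fun a : ℝ => r * Real.exp (-r * a) * cum T a).aestronglyMeasurable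
  · filter_upwards [eventually_ge_atTop T0] with T hT
    refine Eventually.of_forall fun a ha => ?_
    rw [Set.uIoc_of_le (by norm_num)] at ha
    have hT1 : 1 < T := by linarith
    have h1 := cum_nonneg hRH hT1 ha.1.le
    have h2 := hb T hT a ha.1.le
    rw [Real.norm_eq_abs, abs_mul, abs_mul, abs_of_nonneg h1, abs_of_pos (Real.exp_pos _)]
    gcongr
    linarith [ha.2]
  · exact (by fun_prop : Continuous fun a : ℝ => |r| * Real.exp (-r * a) *
      (1 + C)).intervalIntegrable _ _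
  · refine Eventually.of_forall fun a ha => ?_
    rw [Set.uIoc_of_le (by norm_num)] at ha
    exact (cum_lim hRH ha.1 (by linarith [ha.2])).const_mul _

lemma exists_r0 (C : ℝ) (hC : 0 < C) : ∃ r0 : ℝ, 1 ≤ r0 ∧ ∀ r : ℝ, r0 ≤ r →
    Real.exp (-r * (1 / 2)) * (3 + C) ≤ 1 / (2 * r ^ 2) := by
  have h1 := (Real.tendsto_pow_mul_exp_neg_atTop_nhds_zero 2).comp
    (tendsto_id.const_mul_atTop (by norm_num : (0 : ℝ) < 1 / 2))
  have h2 : (0 : ℝ) < 1 / (8 * (3 + C)) := by positivity
  have h3 := (h1.eventually (gt_mem_nhds h2)).and (eventually_ge_atTop (1 : ℝ))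
  obtain ⟨r0, hr0⟩ := eventually_atTop.1 h3
  refine ⟨max r0 1, le_max_right _ _, fun r hr => ?_⟩
  obtain ⟨h4, h5⟩ := hr0 r ((le_max_left _ _).trans hr)
  simp only [Function.comp, id] at h4
  rw [show -(1 / 2 * r) = -r * (1 / 2) by ring] at h4
  rw [le_div_iff₀ (by positivity)]
  rw [lt_div_iff₀ (by positivity)] at h4
  nlinarith

/-- the Laplace transform of `F` is at most `1/2 + 2/r²` -/
theorem lap_upper (hRH : RiemannHypothesis) : ∃ r0 : ℝ, 1 ≤ r0 ∧ ∀ r : ℝ, r0 ≤ r →
    ∀ᶠ T in atTop, K2 T (fun x => 4 / (4 + x ^ 2) * ph r (Real.log T * x)) ≤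
      (1 / 2 + 2 / r ^ 2) * X T := by
  obtain ⟨C, T0, hC, hT0, hb⟩ := cum_bound hRH
  obtain ⟨r0, hr0, hr⟩ := exists_r0 C hC
  refine ⟨r0, hr0, fun r hr' => ?_⟩
  have hr1 : 1 ≤ r := hr0.trans hr'
  have hrp : 0 < r := by linarith
  have h1 := (Metric.tendsto_nhds.1 (low_lim hRH r)) (1 / (2 * r ^ 2)) (by positivity)
  filter_upwards [h1, eventually_ge_atTop T0] with T h1 hT
  have hT1 : 1 < T := by linarith
  have hX := X_pos hT1
  rw [Real.dist_eq, abs_lt] at h1
  have h2 := int_low r hrp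
  rw [← (lap_K2 hRH T hrp).2]
  have hint := (lap_K2 hRH T hrp).1
  have hlim := MeasureTheory.intervalIntegral_tendsto_integral_Ioi (μ := volume) 0 hint
    (tendsto_id (α := ℝ) (x := atTop))
  refine le_of_tendsto hlim ?_
  filter_upwards [eventually_ge_atTop (1 / 2 : ℝ)] with B hB
  simp only [id]
  rw [parts hRH hT1]
  have hcc := cum_cont hRH T
  have hi1 : Continuous fun a : ℝ => r * Real.exp (-r * a) * cum T a := by fun_prop
  have h3 : ∫ a in (0 : ℝ)..B, r * Real.exp (-r * a) * cum T a =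
      (∫ a in (0 : ℝ)..(1 / 2), r * Real.exp (-r * a) * cum T a) +
        ∫ a in (1 / 2 : ℝ)..B, r * Real.exp (-r * a) * cum T a :=
    (intervalIntegral.integral_add_adjacent_intervals (hi1.intervalIntegrable _ _)
      (hi1.intervalIntegrable _ _)).symm
  have h4 : ∫ a in (1 / 2 : ℝ)..B, r * Real.exp (-r * a) * cum T a ≤
      ∫ a in (1 / 2 : ℝ)..B, 2 * (r * Real.exp (-r * a) * (a + C / 2)) := by
    refine intervalIntegral.integral_mono_on hB (hi1.intervalIntegrable _ _)
      ((by fun_prop : Continuous fun a : ℝ => 2 * (r * Real.exp (-r * a) *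
        (a + C / 2))).intervalIntegrable _ _) fun a ha => ?_
    have h5 := hb T hT a (by linarith [ha.1])
    have h6 := Real.exp_pos (-r * a)
    have h7 : r * Real.exp (-r * a) * cum T a ≤ r * Real.exp (-r * a) * (2 * a + C) := by gcongr
    linarith
  rw [intervalIntegral.integral_const_mul, expl hrp] at h4
  have h5 := hb T hT B (by linarith)
  have h6 : Real.exp (-r * B) * cum T B ≤ Real.exp (-r * B) * (2 * B + C) := by
    have := Real.exp_pos (-r * B)
    gcongr
  have h7 := hr r hr'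
  have h8 : Real.exp (-r * (1 / 2)) * (2 * (1 / 2 + C / 2 + 1 / r)) ≤
      Real.exp (-r * (1 / 2)) * (3 + C) := by
    have h9 : 1 / r ≤ 1 := by
      rw [div_le_one hrp]
      exact hr1
    have := Real.exp_pos (-r * (1 / 2))
    gcongr
    linarith
  have h9 : 0 ≤ Real.exp (-r * B) * (1 / r) := by positivity
  have h10 : Real.exp (-r * B) * cum T B + ∫ a in (0 : ℝ)..B, r * Real.exp (-r * a) * cum T a ≤
      1 / 2 + 2 / r ^ 2 := by
    rw [h3]
    have h11 : 1 / (2 * r ^ 2) + 1 / (2 * r ^ 2) + 1 / r ^ 2 = 2 / r ^ 2 := by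
      field_simp
      norm_num
    nlinarith [h1.2]
  calc X T * (Real.exp (-r * B) * cum T B + ∫ a in (0 : ℝ)..B, r * Real.exp (-r * a) * cum T a) ≤
      X T * (1 / 2 + 2 / r ^ 2) := by gcongr
    _ = _ := by ring

/-- the weight is harmless -/
lemma unweight (r : ℝ) (hr : 0 < r) {η : ℝ} (hη : 0 < η) : ∀ᶠ T in atTop,
    K2 T (fun x => (1 - 4 / (4 + x ^ 2)) * ph r (Real.log T * x)) ≤ η * X T := by
  obtain ⟨C, T0, hC, hT0, h⟩ := K2_w
  have h1 : ∀ᶠ T : ℝ in atTop, r * C * Real.pi / η ≤ Real.log T :=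
    Real.tendsto_log_atTop.eventually_ge_atTop _
  filter_upwards [h1, eventually_ge_atTop T0] with T h1 hT
  have hT1 : 1 < T := by linarith
  have hL := Real.log_pos hT1
  have hpi := Real.pi_pos
  have h2 : K2 T (fun x => (1 - 4 / (4 + x ^ 2)) * ph r (Real.log T * x)) ≤
      K2 T (fun x => r / (4 * Real.log T ^ 2) * (4 / (4 + x ^ 2))) := by
    refine K2_mono fun x => ?_
    unfold ph
    have e1 : 1 - 4 / (4 + x ^ 2) = x ^ 2 / (4 + x ^ 2) := by
      field_simp
      ring
    rw [e1, div_mul_div_comm, div_mul_div_comm, div_le_div_iff₀ (by positivity) (by positivity)]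
    nlinarith [mul_nonneg (mul_nonneg hr.le (by positivity : 0 ≤ 4 + x ^ 2)) (sq_nonneg r)]
  rw [K2_smul] at h2
  refine h2.trans ?_
  have h3 := h T hT
  calc r / (4 * Real.log T ^ 2) * K2 T (fun x => 4 / (4 + x ^ 2)) ≤
      r / (4 * Real.log T ^ 2) * (C * (T * Real.log T ^ 2)) := by gcongr
    _ = (r * C) * T / 4 := by
      field_simp
    _ ≤ η * X T := by
      unfold X
      rw [div_le_iff₀ hη] at h1
      have hT0 : 0 < T := by linarith
      rw [← mul_div_assoc, div_le_div_iff₀ (by norm_num) (by positivity)]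
      nlinarith [mul_le_mul_of_nonneg_left h1 hT0.le, mul_nonneg (mul_nonneg hr.le hC.le) hT0.le]

/-- **the pair sum of the Poisson kernel** -/
theorem ph_upper (hRH : RiemannHypothesis) : ∃ r0 : ℝ, 1 ≤ r0 ∧ ∀ r : ℝ, r0 ≤ r →
    ∀ᶠ T in atTop, K2 T (fun x => ph r (Real.log T * x)) ≤ (1 / 2 + 3 / r ^ 2) * X T := by
  obtain ⟨r0, hr0, h⟩ := lap_upper hRH
  refine ⟨r0, hr0, fun r hr => ?_⟩
  have hrp : 0 < r := by linarith
  filter_upwards [h r hr, unweight r hrp (η := 1 / r ^ 2) (by positivity)] with T h1 h2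
  have h3 : K2 T (fun x => ph r (Real.log T * x)) =
      K2 T (fun x => 4 / (4 + x ^ 2) * ph r (Real.log T * x)) +
        K2 T (fun x => (1 - 4 / (4 + x ^ 2)) * ph r (Real.log T * x)) := by
    rw [← K2_add]
    congr 1
    funext x
    ring
  rw [h3]
  have h4 : (1 / 2 + 3 / r ^ 2) * X T = (1 / 2 + 2 / r ^ 2) * X T + 1 / r ^ 2 * X T := by ring
  linarith

end Pool.Agent.Helper69.AH
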